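import Mathlib

/-! # Interpolation with change of weights, for `p = 2` -/

set_option autoImplicit false

open MeasureTheory Filter Topology
open scoped Convolution

namespace Pool.MP_75bf3e_an.RH

/-- test functions -/
def Tst (h : ℂ → ℝ) : Prop := ContDiff ℝ ((⊤ : ℕ∞) : WithTop ℕ∞) h ∧ HasCompactSupport h

theorem alg (a b : ℂ) (t : ℝ) (ht : 0 < t) :
    ‖a + b‖ ^ 2 * (t / (1 + t)) ≤ ‖a‖ ^ 2 + t * ‖b‖ ^ 2 := by
  have h := norm_add_le a b
  have h0 := norm_nonneg (a + b)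
  have h1 : ‖a + b‖ ^ 2 ≤ (‖a‖ + ‖b‖) ^ 2 := pow_le_pow_left₀ h0 h 2
  rw [mul_div_assoc', div_le_iff₀ (by positivity)]
  nlinarith [sq_nonneg (‖a‖ - t * ‖b‖), mul_le_mul_of_nonneg_right h1 ht.le]

theorem Tst.sq_int {h : ℂ → ℝ} (hh : Tst h) {u : ℂ → ℝ} (hu : LocallyIntegrable u volume) :
    Integrable (fun z => h z ^ 2 * u z) volume := by
  have hs : HasCompactSupport (fun z => h z ^ 2) :=
    hh.2.comp_left (g := fun t : ℝ => t ^ 2) (by norm_num)
  have := hu.integrable_smul_left_of_hasCompactSupport (g := fun z => h z ^ 2)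
    (hh.1.continuous.pow 2) hs
  simpa [smul_eq_mul] using this

theorem Tst.sq_int1 {h : ℂ → ℝ} (hh : Tst h) : Integrable (fun z => h z ^ 2) volume := by
  have hs : HasCompactSupport (fun z => h z ^ 2) :=
    hh.2.comp_left (g := fun t : ℝ => t ^ 2) (by norm_num)
  exact (hh.1.continuous.pow 2).integrable_of_hasCompactSupport hs

theorem interpA (T : (ℂ → ℝ) → ℂ → ℂ)
    (hadd : ∀ a b, Tst a → Tst b → ∀ z, T (fun y => a y + b y) z = T a z + T b z)
    (hmeas : ∀ a, Tst a → Measurable (T a))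
    (u : ℂ → ℝ) (hu : ∀ z, 0 < u z) (hum : Measurable u)
    (A0 A1 : ℝ)
    (H0 : ∀ a, Tst a → ∫⁻ z, ENNReal.ofReal (‖T a z‖ ^ 2) ≤ ENNReal.ofReal (A0 ^ 2 * ∫ z, a z ^ 2))
    (H1 : ∀ a, Tst a → ∫⁻ z, ENNReal.ofReal (‖T a z‖ ^ 2 * u z) ≤
      ENNReal.ofReal (A1 ^ 2 * ∫ z, a z ^ 2 * u z))
    (f m : ℂ → ℝ) (hf : Tst f) (hm : ContDiff ℝ ((⊤ : ℕ∞) : WithTop ℕ∞) m) (s : ℝ) (hs : 0 < s) :
    ∫⁻ z, ENNReal.ofReal (‖T f z‖ ^ 2 * (s * u z / (1 + s * u z))) ≤
      ENNReal.ofReal (A0 ^ 2 * (∫ z, (f z * (1 - m z)) ^ 2) +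
        s * A1 ^ 2 * ∫ z, (f z * m z) ^ 2 * u z) := by
  have ha : Tst (fun z => f z * (1 - m z)) := ⟨hf.1.mul (contDiff_const.sub hm), hf.2.mul_right⟩
  have hb : Tst (fun z => f z * m z) := ⟨hf.1.mul hm, hf.2.mul_right⟩
  have hsplit : ∀ z, T f z = T (fun z => f z * (1 - m z)) z + T (fun z => f z * m z) z := by
    intro z
    rw [← hadd _ _ ha hb z]
    congr 1
    funext y
    ring
  have i0 : 0 ≤ ∫ z, (f z * (1 - m z)) ^ 2 := integral_nonneg fun z => sq_nonneg _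
  have i1 : 0 ≤ ∫ z, (f z * m z) ^ 2 * u z :=
    integral_nonneg fun z => mul_nonneg (sq_nonneg _) (hu z).le
  calc ∫⁻ z, ENNReal.ofReal (‖T f z‖ ^ 2 * (s * u z / (1 + s * u z)))
      ≤ ∫⁻ z, (ENNReal.ofReal (‖T (fun z => f z * (1 - m z)) z‖ ^ 2) +
          ENNReal.ofReal s * ENNReal.ofReal (‖T (fun z => f z * m z) z‖ ^ 2 * u z)) := by
        refine lintegral_mono fun z => ?_
        rw [← ENNReal.ofReal_mul hs.le, ← ENNReal.ofReal_add (sq_nonneg _)
          (mul_nonneg hs.le (mul_nonneg (sq_nonneg _) (hu z).le)), hsplit z]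
        refine ENNReal.ofReal_le_ofReal ((alg _ _ (s * u z) (mul_pos hs (hu z))).trans
          (le_of_eq ?_))
        ring
    _ = (∫⁻ z, ENNReal.ofReal (‖T (fun z => f z * (1 - m z)) z‖ ^ 2)) +
          ENNReal.ofReal s * ∫⁻ z, ENNReal.ofReal (‖T (fun z => f z * m z) z‖ ^ 2 * u z) := by
        rw [lintegral_add_left (((hmeas _ ha).norm.pow_const 2).ennreal_ofReal),
          lintegral_const_mul' _ _ ENNReal.ofReal_ne_top]
    _ ≤ ENNReal.ofReal (A0 ^ 2 * ∫ z, (f z * (1 - m z)) ^ 2) +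
          ENNReal.ofReal s * ENNReal.ofReal (A1 ^ 2 * ∫ z, (f z * m z) ^ 2 * u z) :=
        add_le_add (H0 _ ha) (mul_le_mul_right (H1 _ hb) _)
    _ = _ := by
        rw [← ENNReal.ofReal_mul hs.le, ← ENNReal.ofReal_add (by positivity) (by positivity)]
        congr 1
        ring

theorem interpB (T : (ℂ → ℝ) → ℂ → ℂ)
    (hadd : ∀ a b, Tst a → Tst b → ∀ z, T (fun y => a y + b y) z = T a z + T b z)
    (hmeas : ∀ a, Tst a → Measurable (T a))
    (u : ℂ → ℝ) (hu : ∀ z, 0 < u z) (hum : Measurable u) (hul : LocallyIntegrable u volume)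
    (A0 A1 : ℝ)
    (H0 : ∀ a, Tst a → ∫⁻ z, ENNReal.ofReal (‖T a z‖ ^ 2) ≤ ENNReal.ofReal (A0 ^ 2 * ∫ z, a z ^ 2))
    (H1 : ∀ a, Tst a → ∫⁻ z, ENNReal.ofReal (‖T a z‖ ^ 2 * u z) ≤
      ENNReal.ofReal (A1 ^ 2 * ∫ z, a z ^ 2 * u z))
    (f m : ℂ → ℝ) (hf : Tst f) (hm : Measurable m) (hm0 : ∀ z, 0 ≤ m z) (hm1 : ∀ z, m z ≤ 1)
    (s : ℝ) (hs : 0 < s) :
    ∫⁻ z, ENNReal.ofReal (‖T f z‖ ^ 2 * (s * u z / (1 + s * u z))) ≤
      ENNReal.ofReal (A0 ^ 2 * (∫ z, (f z * (1 - m z)) ^ 2) +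
        s * A1 ^ 2 * ∫ z, (f z * m z) ^ 2 * u z) := by
  have hml : LocallyIntegrable m volume := by
    refine (locallyIntegrable_const (1 : ℝ)).mono hm.aestronglyMeasurable
      (Eventually.of_forall fun z => ?_)
    rw [Real.norm_eq_abs, abs_of_nonneg (hm0 z), norm_one]
    exact hm1 z
  let φ : ℕ → ContDiffBump (0 : ℂ) := fun j =>
    ⟨1 / (2 * ((j : ℝ) + 1)), 1 / ((j : ℝ) + 1), by positivity, by
      apply one_div_lt_one_div_of_lt (by positivity)
      linarith [(by positivity : (0 : ℝ) < (j : ℝ) + 1)]⟩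
  set M : ℕ → ℂ → ℝ := fun j => ((φ j).normed volume) ⋆[ContinuousLinearMap.lsmul ℝ ℝ, volume] m
    with hM
  have hMc : ∀ j, ContDiff ℝ ((⊤ : ℕ∞) : WithTop ℕ∞) (M j) := fun j =>
    (φ j).hasCompactSupport_normed.contDiff_convolution_left _ (φ j).contDiff_normed hml
  have hMval : ∀ j z, M j z = ∫ t, (φ j).normed volume t * m (z - t) := by
    intro j z
    simp only [hM, convolution_def, ContinuousLinearMap.lsmul_apply, smul_eq_mul]
  have hM0 : ∀ j z, 0 ≤ M j z := by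
    intro j z
    rw [hMval]
    exact integral_nonneg fun t => mul_nonneg ((φ j).nonneg_normed t) (hm0 _)
  have hM1 : ∀ j z, M j z ≤ 1 := by
    intro j z
    rw [hMval, ← (φ j).integral_normed (μ := (volume : Measure ℂ))]
    refine integral_mono_of_nonneg (Eventually.of_forall fun t =>
      mul_nonneg ((φ j).nonneg_normed t) (hm0 _)) (φ j).integrable_normed
      (Eventually.of_forall fun t => ?_)
    exact mul_le_of_le_one_right ((φ j).nonneg_normed t) (hm1 _)
  have hlim : ∀ᵐ z ∂(volume : Measure ℂ), Tendsto (fun j => M j z) atTop (𝓝 (m z)) := by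
    refine ContDiffBump.ae_convolution_tendsto_right_of_locallyIntegrable (K := 2) ?_ ?_ hml
    · exact tendsto_one_div_add_atTop_nhds_zero_nat
    · refine Eventually.of_forall fun j => ?_
      change 1 / ((j : ℝ) + 1) ≤ 2 * (1 / (2 * ((j : ℝ) + 1)))
      have : (0 : ℝ) < (j : ℝ) + 1 := by positivity
      field_simp
      exact le_rfl
  have l0 : Tendsto (fun j => ∫ z, (f z * (1 - M j z)) ^ 2) atTop
      (𝓝 (∫ z, (f z * (1 - m z)) ^ 2)) := by
    refine tendsto_integral_of_dominated_convergence (fun z => f z ^ 2) (fun j => ?_) hf.sq_int1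
      (fun j => Eventually.of_forall fun z => ?_) ?_
    · exact ((hf.1.continuous.mul (continuous_const.sub (hMc j).continuous)).pow 2).aestronglyMeasurable
    · rw [Real.norm_eq_abs, abs_of_nonneg (sq_nonneg _), mul_pow]
      have h1 := hM0 j z
      have h2 := hM1 j z
      have h3 : (1 - M j z) ^ 2 ≤ 1 := by nlinarith
      exact mul_le_of_le_one_right (sq_nonneg _) h3
    · filter_upwards [hlim] with z hz
      exact ((tendsto_const_nhds.sub hz).const_mul (f z)).pow 2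
  have l1 : Tendsto (fun j => ∫ z, (f z * M j z) ^ 2 * u z) atTop
      (𝓝 (∫ z, (f z * m z) ^ 2 * u z)) := by
    refine tendsto_integral_of_dominated_convergence (fun z => f z ^ 2 * u z) (fun j => ?_)
      (hf.sq_int hul) (fun j => Eventually.of_forall fun z => ?_) ?_
    · exact ((hf.1.continuous.mul (hMc j).continuous).pow 2).aestronglyMeasurable.mul
        hum.aestronglyMeasurable
    · rw [Real.norm_eq_abs, abs_of_nonneg (mul_nonneg (sq_nonneg _) (hu z).le), mul_pow]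
      have h1 := hM0 j z
      have h2 := hM1 j z
      have h3 : (M j z) ^ 2 ≤ 1 := by nlinarith
      exact mul_le_mul_of_nonneg_right (mul_le_of_le_one_right (sq_nonneg _) h3) (hu z).le
    · filter_upwards [hlim] with z hz
      exact (((hz.const_mul (f z)).pow 2)).mul_const (u z)
  have l2 := ENNReal.tendsto_ofReal ((l0.const_mul (A0 ^ 2)).add (l1.const_mul (s * A1 ^ 2)))
  exact ge_of_tendsto l2 (Eventually.of_forall fun j =>
    interpA T hadd hmeas u hu hum A0 A1 H0 H1 f (M j) hf (hMc j) s hs)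

theorem interpC (T : (ℂ → ℝ) → ℂ → ℂ)
    (hadd : ∀ a b, Tst a → Tst b → ∀ z, T (fun y => a y + b y) z = T a z + T b z)
    (hmeas : ∀ a, Tst a → Measurable (T a))
    (u : ℂ → ℝ) (hu : ∀ z, 0 < u z) (hum : Measurable u) (hul : LocallyIntegrable u volume)
    (A0 A1 : ℝ) (hA0 : 0 < A0) (hA1 : 0 < A1)
    (H0 : ∀ a, Tst a → ∫⁻ z, ENNReal.ofReal (‖T a z‖ ^ 2) ≤ ENNReal.ofReal (A0 ^ 2 * ∫ z, a z ^ 2))
    (H1 : ∀ a, Tst a → ∫⁻ z, ENNReal.ofReal (‖T a z‖ ^ 2 * u z) ≤
      ENNReal.ofReal (A1 ^ 2 * ∫ z, a z ^ 2 * u z))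
    (f : ℂ → ℝ) (hf : Tst f) (s : ℝ) (hs : 0 < s) :
    ∫⁻ z, ENNReal.ofReal (‖T f z‖ ^ 2 * (s * u z / (1 + s * u z))) ≤
      ∫⁻ z, ENNReal.ofReal (A0 ^ 2 * f z ^ 2 *
        (s * ((A1 / A0) ^ 2 * u z) / (1 + s * ((A1 / A0) ^ 2 * u z)))) := by
  set r : ℝ := (A1 / A0) ^ 2 with hr
  have hr0 : 0 < r := by positivity
  have hpos : ∀ z, 0 < 1 + s * (r * u z) := fun z => by
    have := hu z
    positivity
  set m : ℂ → ℝ := fun z => 1 / (1 + s * (r * u z)) with hm
  have hmm : Measurable m := measurable_const.div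
    (measurable_const.add ((hum.const_mul r).const_mul s))
  have hm0 : ∀ z, 0 ≤ m z := fun z => (one_div_pos.2 (hpos z)).le
  have hm1 : ∀ z, m z ≤ 1 := fun z => by
    simp only [hm]
    rw [div_le_one (hpos z)]
    have := hu z
    have : 0 < s * (r * u z) := by positivity
    linarith
  refine (interpB T hadd hmeas u hu hum hul A0 A1 H0 H1 f m hf hmm hm0 hm1 s hs).trans ?_
  have i0 : Integrable (fun z => (f z * (1 - m z)) ^ 2) volume := by
    refine hf.sq_int1.mono' ?_ (Eventually.of_forall fun z => ?_)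
    · exact ((hf.1.continuous.measurable.mul (measurable_const.sub hmm)).pow_const 2).aestronglyMeasurable
    · rw [Real.norm_eq_abs, abs_of_nonneg (sq_nonneg _), mul_pow]
      have h1 := hm0 z
      have h2 := hm1 z
      have h3 : (1 - m z) ^ 2 ≤ 1 := by nlinarith
      exact mul_le_of_le_one_right (sq_nonneg _) h3
  have i1 : Integrable (fun z => (f z * m z) ^ 2 * u z) volume := by
    refine (hf.sq_int hul).mono' ?_ (Eventually.of_forall fun z => ?_)
    · exact (((hf.1.continuous.measurable.mul hmm).pow_const 2).mul hum).aestronglyMeasurable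
    · rw [Real.norm_eq_abs, abs_of_nonneg (mul_nonneg (sq_nonneg _) (hu z).le), mul_pow]
      have h1 := hm0 z
      have h2 := hm1 z
      have h3 : (m z) ^ 2 ≤ 1 := by nlinarith
      exact mul_le_mul_of_nonneg_right (mul_le_of_le_one_right (sq_nonneg _) h3) (hu z).le
  have i2 : Integrable (fun z => A0 ^ 2 * (f z * (1 - m z)) ^ 2 +
      s * A1 ^ 2 * ((f z * m z) ^ 2 * u z)) volume := (i0.const_mul _).add (i1.const_mul _)
  rw [← integral_const_mul, ← integral_const_mul, ← integral_add (i0.const_mul _) (i1.const_mul _),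
    ofReal_integral_eq_lintegral_ofReal i2]
  · refine lintegral_mono fun z => ENNReal.ofReal_le_ofReal (le_of_eq ?_)
    change A0 ^ 2 * (f z * (1 - m z)) ^ 2 + s * A1 ^ 2 * ((f z * m z) ^ 2 * u z) = _
    have e1 : A1 ^ 2 = A0 ^ 2 * r := by
      rw [hr]
      field_simp
    have h3 := (hpos z).ne'
    have e2 : m z = 1 / (1 + s * (r * u z)) := rfl
    set y : ℝ := s * (r * u z) with hy
    have e3 : 1 - m z = y / (1 + y) := by
      rw [e2]
      field_simp
      ring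
    have e4 : s * (A0 ^ 2 * r) * ((f z * m z) ^ 2 * u z) = A0 ^ 2 * (f z * m z) ^ 2 * y := by
      rw [hy]
      ring
    rw [e1, e3, e4, e2]
    field_simp
    ring
  · refine Eventually.of_forall fun z => ?_
    have := (hu z).le
    change 0 ≤ A0 ^ 2 * (f z * (1 - m z)) ^ 2 + s * A1 ^ 2 * ((f z * m z) ^ 2 * u z)
    positivity


/-- the Mellin kernel -/
noncomputable def ker (θ s v : ℝ) : ℝ := s ^ (-θ - 1) * (s * v / (1 + s * v))

theorem ker_nonneg (θ s v : ℝ) (hs : 0 < s) (hv : 0 < v) : 0 ≤ ker θ s v := by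
  unfold ker
  have := Real.rpow_nonneg hs.le (-θ - 1)
  positivity

theorem ker_scal (θ s v : ℝ) (hs : 0 < s) (hv : 0 < v) :
    ker θ s v = v ^ (θ + 1) * ker θ (v * s) 1 := by
  unfold ker
  rw [Real.mul_rpow hv.le hs.le]
  have e : v ^ (θ + 1) * v ^ (-θ - 1) = 1 := by
    rw [← Real.rpow_add hv]
    have : θ + 1 + (-θ - 1) = 0 := by ring
    rw [this, Real.rpow_zero]
  calc s ^ (-θ - 1) * (s * v / (1 + s * v))
      = (v ^ (θ + 1) * v ^ (-θ - 1)) * s ^ (-θ - 1) * (s * v / (1 + s * v)) := by rw [e, one_mul]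
    _ = _ := by
      rw [mul_one, mul_comm v s]
      ring

theorem ker_int (θ : ℝ) (h0 : 0 < θ) (h1 : θ < 1) :
    IntegrableOn (fun s => ker θ s 1) (Set.Ioi 0) volume := by
  have hm : Measurable fun s => ker θ s 1 := by
    unfold ker
    fun_prop
  rw [← Set.Ioc_union_Ioi_eq_Ioi zero_le_one]
  refine IntegrableOn.union ?_ ?_
  · have h2 : IntegrableOn (fun s : ℝ => s ^ (-θ)) (Set.Ioc 0 1) volume := by
      have := intervalIntegral.intervalIntegrable_rpow' (a := 0) (b := 1) (r := -θ) (by linarith)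
      rwa [intervalIntegrable_iff, Set.uIoc_of_le zero_le_one] at this
    refine Integrable.mono' h2 hm.aestronglyMeasurable ?_
    refine (ae_restrict_iff' measurableSet_Ioc).2 (Eventually.of_forall fun s hs => ?_)
    have hs0 : 0 < s := hs.1
    rw [Real.norm_eq_abs, abs_of_nonneg (ker_nonneg θ s 1 hs0 one_pos)]
    unfold ker
    rw [mul_one]
    have e : s ^ (-θ) = s ^ (-θ - 1) * s := by
      rw [Real.rpow_sub_one hs0.ne']
      field_simp
    rw [e]
    refine mul_le_mul_of_nonneg_left ?_ (Real.rpow_nonneg hs0.le _)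
    rw [div_le_iff₀ (by positivity)]
    nlinarith
  · have h2 : IntegrableOn (fun s : ℝ => s ^ (-θ - 1)) (Set.Ioi 1) volume :=
      integrableOn_Ioi_rpow_of_lt (by linarith) one_pos
    refine Integrable.mono' h2 hm.aestronglyMeasurable ?_
    refine (ae_restrict_iff' measurableSet_Ioi).2 (Eventually.of_forall fun s hs => ?_)
    have hs1 : 1 < s := hs
    have hs0 : 0 < s := by linarith
    rw [Real.norm_eq_abs, abs_of_nonneg (ker_nonneg θ s 1 hs0 one_pos)]
    unfold ker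
    rw [mul_one]
    refine mul_le_of_le_one_right (Real.rpow_nonneg hs0.le _) ?_
    rw [div_le_one (by positivity)]
    linarith

/-- the Mellin integral -/
theorem mellin (θ : ℝ) (h0 : 0 < θ) (h1 : θ < 1) : ∃ c : ENNReal, c ≠ 0 ∧ c ≠ ⊤ ∧
    ∀ v : ℝ, 0 < v → ∫⁻ s in Set.Ioi 0, ENNReal.ofReal (ker θ s v) = ENNReal.ofReal (v ^ θ) * c := by
  have hi := ker_int θ h0 h1
  refine ⟨∫⁻ s in Set.Ioi 0, ENNReal.ofReal (ker θ s 1), ?_, ?_, fun v hv => ?_⟩
  · intro hc
    have hm : Measurable fun s => ENNReal.ofReal (ker θ s 1) := by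
      unfold ker
      fun_prop
    rw [lintegral_eq_zero_iff hm] at hc
    have h2 := (ae_restrict_iff' measurableSet_Ioi).1 hc
    have h3 : volume (Set.Ioi (0 : ℝ)) ≤ 0 := by
      rw [← ae_iff.1 h2]
      refine measure_mono fun s hs => ?_
      simp only [Set.mem_ofPred_eq, Classical.not_imp]
      refine ⟨hs, ?_⟩
      have hs0 : 0 < s := hs
      change ¬ ENNReal.ofReal (ker θ s 1) = 0
      rw [ENNReal.ofReal_eq_zero, not_le]
      unfold ker
      have := Real.rpow_pos_of_pos hs0 (-θ - 1)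
      positivity
    rw [Real.volume_Ioi] at h3
    exact absurd h3 (by simp)
  · have := hi.lintegral_lt_top
    exact this.ne
  · have hi' : IntegrableOn (fun s => ker θ (v * s) 1) (Set.Ioi 0) volume := by
      have := (integrableOn_Ioi_comp_mul_left_iff (fun s => ker θ s 1) 0 hv).2
      rw [mul_zero] at this
      exact this hi
    have n1 : ∀ᵐ s ∂(volume.restrict (Set.Ioi (0 : ℝ))), 0 ≤ ker θ s 1 :=
      (ae_restrict_iff' measurableSet_Ioi).2 (Eventually.of_forall fun s hs =>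
        ker_nonneg θ s 1 hs one_pos)
    have n2 : ∀ᵐ s ∂(volume.restrict (Set.Ioi (0 : ℝ))), 0 ≤ ker θ (v * s) 1 :=
      (ae_restrict_iff' measurableSet_Ioi).2 (Eventually.of_forall fun s hs =>
        ker_nonneg θ _ 1 (mul_pos hv hs) one_pos)
    have e1 : ∫⁻ s in Set.Ioi 0, ENNReal.ofReal (ker θ s v) =
        ENNReal.ofReal (v ^ (θ + 1)) * ∫⁻ s in Set.Ioi 0, ENNReal.ofReal (ker θ (v * s) 1) := by
      rw [← lintegral_const_mul' _ _ ENNReal.ofReal_ne_top]
      refine setLIntegral_congr_fun measurableSet_Ioi fun s hs => ?_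
      rw [← ENNReal.ofReal_mul (Real.rpow_nonneg hv.le _), ← ker_scal θ s v hs hv]
    rw [e1, ← ofReal_integral_eq_lintegral_ofReal hi' n2, ← ofReal_integral_eq_lintegral_ofReal hi n1,
      integral_comp_mul_left_Ioi (fun s => ker θ s 1) 0 hv, mul_zero, smul_eq_mul,
      ENNReal.ofReal_mul (inv_nonneg.2 hv.le), ← mul_assoc,
      ← ENNReal.ofReal_mul (Real.rpow_nonneg hv.le _)]
    congr 2
    rw [Real.rpow_add_one hv.ne']
    field_simp

theorem interp (T : (ℂ → ℝ) → ℂ → ℂ)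
    (hadd : ∀ a b, Tst a → Tst b → ∀ z, T (fun y => a y + b y) z = T a z + T b z)
    (hmeas : ∀ a, Tst a → Measurable (T a))
    (u : ℂ → ℝ) (hu : ∀ z, 0 < u z) (hum : Measurable u) (hul : LocallyIntegrable u volume)
    (A0 A1 : ℝ) (hA0 : 0 < A0) (hA1 : 0 < A1)
    (H0 : ∀ a, Tst a → ∫⁻ z, ENNReal.ofReal (‖T a z‖ ^ 2) ≤ ENNReal.ofReal (A0 ^ 2 * ∫ z, a z ^ 2))
    (H1 : ∀ a, Tst a → ∫⁻ z, ENNReal.ofReal (‖T a z‖ ^ 2 * u z) ≤
      ENNReal.ofReal (A1 ^ 2 * ∫ z, a z ^ 2 * u z))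
    (θ : ℝ) (h0 : 0 < θ) (h1 : θ < 1) (f : ℂ → ℝ) (hf : Tst f) :
    ∫⁻ z, ENNReal.ofReal (‖T f z‖ ^ 2 * u z ^ θ) ≤
      ENNReal.ofReal ((A0 ^ (1 - θ) * A1 ^ θ) ^ 2) * ∫⁻ z, ENNReal.ofReal (f z ^ 2 * u z ^ θ) := by
  obtain ⟨c, hc0, hc1, hc⟩ := mellin θ h0 h1
  set r : ℝ := (A1 / A0) ^ 2 with hr
  have hr0 : 0 < r := by positivity
  have key : ∀ (F v : ℂ → ℝ), Measurable F → Measurable v → (∀ z, 0 ≤ F z) → (∀ z, 0 < v z) →
      (∫⁻ z, ENNReal.ofReal (F z * v z ^ θ)) * c =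
        ∫⁻ s in Set.Ioi 0, ENNReal.ofReal (s ^ (-θ - 1)) *
          ∫⁻ z, ENNReal.ofReal (F z * (s * v z / (1 + s * v z))) := by
    intro F v hF hv hF0 hv0
    calc (∫⁻ z, ENNReal.ofReal (F z * v z ^ θ)) * c
        = ∫⁻ z, ENNReal.ofReal (F z * v z ^ θ) * c := by rw [lintegral_mul_const' _ _ hc1]
      _ = ∫⁻ z, ∫⁻ s in Set.Ioi 0, ENNReal.ofReal (F z * ker θ s (v z)) := by
          refine lintegral_congr fun z => ?_
          rw [ENNReal.ofReal_mul (hF0 z), mul_assoc, ← hc (v z) (hv0 z),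
            ← lintegral_const_mul' _ _ ENNReal.ofReal_ne_top]
          refine lintegral_congr fun s => ?_
          rw [ENNReal.ofReal_mul (hF0 z)]
      _ = ∫⁻ s in Set.Ioi 0, ∫⁻ z, ENNReal.ofReal (F z * ker θ s (v z)) := by
          refine lintegral_lintegral_swap ?_
          have hm : Measurable (Function.uncurry fun (z : ℂ) (s : ℝ) =>
              ENNReal.ofReal (F z * ker θ s (v z))) := by
            unfold ker Function.uncurry
            fun_prop
          exact hm.aemeasurable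
      _ = _ := by
          refine setLIntegral_congr_fun measurableSet_Ioi fun s hs => ?_
          have hs0 : 0 < s := hs
          rw [← lintegral_const_mul' _ _ ENNReal.ofReal_ne_top]
          refine lintegral_congr fun z => ?_
          rw [← ENNReal.ofReal_mul (Real.rpow_nonneg hs0.le _)]
          congr 1
          unfold ker
          ring
  have k1 := key (fun z => ‖T f z‖ ^ 2) u ((hmeas f hf).norm.pow_const 2) hum
    (fun z => sq_nonneg _) hu
  have k2 := key (fun z => A0 ^ 2 * f z ^ 2) (fun z => r * u z)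
    ((hf.1.continuous.measurable.pow_const 2).const_mul _) (hum.const_mul r)
    (fun z => by positivity) (fun z => mul_pos hr0 (hu z))
  have k3 : (∫⁻ z, ENNReal.ofReal (‖T f z‖ ^ 2 * u z ^ θ)) * c ≤
      (∫⁻ z, ENNReal.ofReal (A0 ^ 2 * f z ^ 2 * (r * u z) ^ θ)) * c := by
    rw [k1, k2]
    refine setLIntegral_mono' measurableSet_Ioi fun s hs => ?_
    exact mul_le_mul_right (interpC T hadd hmeas u hu hum hul A0 A1 hA0 hA1 H0 H1 f hf s hs) _
  have k4 := (ENNReal.mul_le_mul_iff_left hc0 hc1).1 k3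
  refine k4.trans (le_of_eq ?_)
  rw [← lintegral_const_mul' _ _ ENNReal.ofReal_ne_top]
  refine lintegral_congr fun z => ?_
  rw [← ENNReal.ofReal_mul (sq_nonneg _)]
  congr 1
  rw [Real.mul_rpow hr0.le (hu z).le]
  have e : A0 ^ 2 * r ^ θ = (A0 ^ (1 - θ) * A1 ^ θ) ^ 2 := by
    rw [hr, ← Real.rpow_natCast (A1 / A0) 2, ← Real.rpow_mul (by positivity), mul_comm _ θ,
      Real.rpow_mul (by positivity), Real.div_rpow hA1.le hA0.le, Real.rpow_natCast,
      Real.rpow_sub hA0, Real.rpow_one]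
    have := Real.rpow_pos_of_pos hA0 θ
    field_simp
  rw [← e]
  ring

end Pool.MP_75bf3e_an.RH
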