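import Pool.Agent.Lib_MP_75bf3e.ExSym

/-! # The unweighted `L^2` bound -/

set_option autoImplicit false

open MeasureTheory

namespace Pool.MP_75bf3e_an.RH

open Pool.MP_75bf3e_an.BT

theorem fub (n : ℤ) (f g : ℂ → ℂ) (hf : ContDiff ℝ ((⊤ : ℕ∞) : WithTop ℕ∞) f)
    (hfs : HasCompactSupport f) (hg : ContDiff ℝ ((⊤ : ℕ∞) : WithTop ℕ∞) g)
    (hgs : HasCompactSupport g) :
    ∫ x, Tn n f x * g x = ∫ ξ : ℂ, (starRingEnd ℂ ξ / ξ) ^ n * (fh f ξ * fh g (-ξ)) := by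
  have ig : Integrable g volume := hg.continuous.integrable_of_hasCompactSupport hgs
  have ifh := integrable_fh f hf hfs
  have hcE : Continuous fun z : ℂ × ℂ => Complex.exp (2 * (Real.pi : ℂ) * Complex.I *
      ((z.2.re * z.1.re + z.2.im * z.1.im : ℝ) : ℂ)) := by
    fun_prop
  have hint : Integrable (Function.uncurry fun (x ξ : ℂ) => Complex.exp (2 * (Real.pi : ℂ) * Complex.I *
      ((ξ.re * x.re + ξ.im * x.im : ℝ) : ℂ)) * ((starRingEnd ℂ ξ / ξ) ^ n * fh f ξ) * g x)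
      ((volume : Measure ℂ).prod (volume : Measure ℂ)) := by
    have hb : Integrable (fun z : ℂ × ℂ => g z.1 * fh f z.2)
        ((volume : Measure ℂ).prod (volume : Measure ℂ)) := ig.mul_prod ifh
    refine hb.mono ?_ ?_
    · have hm : Measurable fun z : ℂ × ℂ => (starRingEnd ℂ z.2 / z.2) ^ n :=
        (measurable_mult n).comp measurable_snd
      have h2 : AEStronglyMeasurable (fun z : ℂ × ℂ => fh f z.2)
          ((volume : Measure ℂ).prod (volume : Measure ℂ)) :=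
        ((continuous_fh f hf hfs).comp continuous_snd).aestronglyMeasurable
      have h3 : AEStronglyMeasurable (fun z : ℂ × ℂ => g z.1)
          ((volume : Measure ℂ).prod (volume : Measure ℂ)) :=
        (hg.continuous.comp continuous_fst).aestronglyMeasurable
      exact (hcE.aestronglyMeasurable.mul (hm.aestronglyMeasurable.mul h2)).mul h3
    · refine Filter.Eventually.of_forall fun z => ?_
      simp only [Function.uncurry]
      rw [norm_mul, norm_mul (g z.1), mul_comm ‖g z.1‖]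
      exact mul_le_mul_of_nonneg_right (norm_integrand_le n f z.1 z.2) (norm_nonneg _)
  have h1 : ∀ x, Tn n f x * g x = ∫ ξ : ℂ, Complex.exp (2 * (Real.pi : ℂ) * Complex.I *
      ((ξ.re * x.re + ξ.im * x.im : ℝ) : ℂ)) * ((starRingEnd ℂ ξ / ξ) ^ n * fh f ξ) * g x := by
    intro x
    rw [integral_mul_const, ← Tn_eq_fh]
  simp_rw [h1]
  rw [integral_integral_swap hint]
  refine integral_congr_ae (Filter.Eventually.of_forall fun ξ => ?_)
  simp only
  have h2 : fh g (-ξ) = ∫ x : ℂ, Complex.exp (2 * (Real.pi : ℂ) * Complex.I *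
      ((ξ.re * x.re + ξ.im * x.im : ℝ) : ℂ)) * g x := by
    unfold fh
    refine integral_congr_ae (Filter.Eventually.of_forall fun x => ?_)
    simp only [Complex.neg_re, Complex.neg_im]
    congr 2
    push_cast
    ring
  rw [h2, ← integral_const_mul, ← integral_const_mul]
  refine integral_congr_ae (Filter.Eventually.of_forall fun x => ?_)
  simp only
  ring

open FourierTransform in
theorem planch (f : ℂ → ℂ) (hf : ContDiff ℝ ((⊤ : ℕ∞) : WithTop ℕ∞) f)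
    (hfs : HasCompactSupport f) : Integrable (fun ξ => ‖fh f ξ‖ ^ 2) volume ∧
      ∫ ξ, ‖fh f ξ‖ ^ 2 = ∫ x, ‖f x‖ ^ 2 := by
  have e : ∀ ξ, fh f ξ = (𝓕 (hfs.toSchwartzMap hf)) ξ := by
    intro ξ
    rw [fh_eq_fourier]
    rfl
  constructor
  · have h := ((𝓕 (hfs.toSchwartzMap hf)).memLp 2 (μ := (volume : Measure ℂ))).integrable_norm_pow
      (p := 2) (by norm_num)
    refine h.congr (Filter.Eventually.of_forall fun ξ => ?_)
    simp only [e]
  · have h := SchwartzMap.integral_norm_sq_fourier (hfs.toSchwartzMap hf)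
    simp only [← e] at h
    rw [h]
    rfl

theorem pair_bound (n : ℤ) (f g : ℂ → ℂ) (hf : ContDiff ℝ ((⊤ : ℕ∞) : WithTop ℕ∞) f)
    (hfs : HasCompactSupport f) (hg : ContDiff ℝ ((⊤ : ℕ∞) : WithTop ℕ∞) g)
    (hgs : HasCompactSupport g) :
    ‖∫ x, Tn n f x * g x‖ ≤ √(∫ x, ‖f x‖ ^ 2) * √(∫ x, ‖g x‖ ^ 2) := by
  rw [fub n f g hf hfs hg hgs]
  obtain ⟨i1, e1⟩ := planch f hf hfs
  obtain ⟨i2, e2⟩ := planch g hg hgs
  have i2' : Integrable (fun ξ => ‖fh g (-ξ)‖ ^ 2) volume := i2.comp_neg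
  have e2' : ∫ ξ, ‖fh g (-ξ)‖ ^ 2 = ∫ x, ‖g x‖ ^ 2 := by
    rw [← e2, ← integral_neg_eq_self (fun ξ => ‖fh g ξ‖ ^ 2)]
  have cf := continuous_fh f hf hfs
  have cg : Continuous fun ξ => fh g (-ξ) := (continuous_fh g hg hgs).comp continuous_neg
  have m1 : MemLp (fun ξ => ‖fh f ξ‖) 2 volume := by
    refine (memLp_two_iff_integrable_sq cf.norm.aestronglyMeasurable).2 i1
  have m2 : MemLp (fun ξ => ‖fh g (-ξ)‖) 2 volume := by
    refine (memLp_two_iff_integrable_sq cg.norm.aestronglyMeasurable).2 i2'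
  have hpq : (2 : ℝ).HolderConjugate 2 := by
    rw [Real.holderConjugate_iff]
    norm_num
  have hint : Integrable (fun ξ => ‖fh f ξ‖ * ‖fh g (-ξ)‖) volume :=
    MemLp.integrable_mul m1 m2
  have h2 : (ENNReal.ofReal 2) = 2 := by norm_num
  have cs := integral_mul_norm_le_Lp_mul_Lq (μ := (volume : Measure ℂ)) hpq (f := fun ξ => ‖fh f ξ‖)
    (g := fun ξ => ‖fh g (-ξ)‖) (by rw [h2]; exact m1) (by rw [h2]; exact m2)
  simp only [norm_norm] at cs
  calc ‖∫ ξ : ℂ, (starRingEnd ℂ ξ / ξ) ^ n * (fh f ξ * fh g (-ξ))‖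
      ≤ ∫ ξ, ‖fh f ξ‖ * ‖fh g (-ξ)‖ := by
        refine norm_integral_le_of_norm_le hint (Filter.Eventually.of_forall fun ξ => ?_)
        rw [norm_mul, norm_mul]
        calc ‖(starRingEnd ℂ ξ / ξ) ^ n‖ * (‖fh f ξ‖ * ‖fh g (-ξ)‖)
            ≤ 1 * (‖fh f ξ‖ * ‖fh g (-ξ)‖) :=
              mul_le_mul_of_nonneg_right (norm_mult_le n ξ) (by positivity)
          _ = _ := one_mul _
    _ ≤ (∫ ξ, ‖fh f ξ‖ ^ (2 : ℝ)) ^ (1 / (2 : ℝ)) * (∫ ξ, ‖fh g (-ξ)‖ ^ (2 : ℝ)) ^ (1 / (2 : ℝ)) := cs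
    _ = _ := by
        simp only [Real.rpow_two]
        rw [e1, e2', Real.sqrt_eq_rpow, Real.sqrt_eq_rpow]

/-- the unweighted bound -/
theorem l2 (n : ℤ) (f : ℂ → ℝ) (hf : ContDiff ℝ ((⊤ : ℕ∞) : WithTop ℕ∞) f)
    (hfs : HasCompactSupport f) :
    ∫⁻ z, ‖Tn n (fun y => ((f y : ℝ) : ℂ)) z‖ₑ ^ (2 : ℝ) ≤ ENNReal.ofReal (2 ^ 2 * ∫ z, f z ^ 2) := by
  have hfC : ContDiff ℝ ((⊤ : ℕ∞) : WithTop ℕ∞) (fun y => ((f y : ℝ) : ℂ)) :=
    Complex.ofRealCLM.contDiff.comp hf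
  have hfsC : HasCompactSupport (fun y => ((f y : ℝ) : ℂ)) :=
    hfs.comp_left (g := fun t : ℝ => (t : ℂ)) Complex.ofReal_zero
  have l1 : LocallyIntegrable (fun _ : ℂ => (1 : ℝ)) volume := locallyIntegrable_const _
  have h := dualP 2 (by norm_num) (fun _ : ℂ => (1 : ℝ)) (fun _ => one_pos) l1
    (by simp only [Real.one_rpow]; exact l1) (Tn n (fun y => ((f y : ℝ) : ℂ)))
    (continuous_Tn _ _ hfC hfsC) (√(∫ z, f z ^ 2)) (Real.sqrt_nonneg _) (by
      intro g hg hgs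
      have hgC : ContDiff ℝ ((⊤ : ℕ∞) : WithTop ℕ∞) (fun y => ((g y : ℝ) : ℂ)) :=
        Complex.ofRealCLM.contDiff.comp hg
      have hgsC : HasCompactSupport (fun y => ((g y : ℝ) : ℂ)) :=
        hgs.comp_left (g := fun t : ℝ => (t : ℂ)) Complex.ofReal_zero
      refine (pair_bound n _ _ hfC hfsC hgC hgsC).trans (le_of_eq ?_)
      have e1 : ((2 : ℝ) - 1) / 2 = 1 / 2 := by norm_num
      have e2 : (2 : ℝ) / (2 - 1) = 2 := by norm_num
      simp only [Real.one_rpow, mul_one, e1, e2, Real.rpow_two, sq_abs, Complex.norm_real,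
        Real.norm_eq_abs]
      rw [← Real.sqrt_eq_rpow])
  simp only [ENNReal.ofReal_one, mul_one] at h
  refine h.trans (ENNReal.ofReal_le_ofReal (le_of_eq ?_))
  have hI : 0 ≤ ∫ z, f z ^ 2 := integral_nonneg fun z => sq_nonneg _
  rw [Real.rpow_two, mul_pow, Real.sq_sqrt hI]

end Pool.MP_75bf3e_an.RH
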