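import Pool.Agent.Lib_MP_75bf3e_rh.RH3

/-! # Powers of `A_2` weights -/

set_option autoImplicit false

open MeasureTheory Metric Filter Topology

namespace Pool.MP_75bf3e_an.RH

open Pool.MP_75bf3e_an.BT

theorem rh_lint (w : ℂ → ℝ) (hw : ∀ z, 0 < w z) (hm : Measurable w)
    (h1 : LocallyIntegrable w volume)
    (h2 : LocallyIntegrable (fun z => (w z)⁻¹) volume) (K : ℝ) (hK1 : 1 ≤ K)
    (hK : ∀ P : ℂ × ℤ, mn w P * mn (fun z => (w z)⁻¹) P ≤ K) (P : ℂ × ℤ) :
    ∫⁻ z in sqn P, ENNReal.ofReal (w z ^ (1 + 1 / (64 * K))) ≤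
      2 * (ENNReal.ofReal (mn w P ^ (1 / (64 * K))) * ∫⁻ z in sqn P, ENNReal.ofReal (w z)) := by
  set e : ℝ := 1 / (64 * K) with he
  have hK0 : 0 < K := by linarith
  have he0 : 0 < e := by positivity
  set f : ℕ → ℂ → ENNReal := fun N z =>
    ENNReal.ofReal (min (w z) (N + 1) ^ e) * ENNReal.ofReal (w z) with hf
  have hfm : ∀ N, Measurable (f N) := fun N =>
    ((hm.min measurable_const).pow_const e).ennreal_ofReal.mul hm.ennreal_ofReal
  have hfmono : Monotone f := by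
    intro N M hNM z
    have hNM' : (N : ℝ) ≤ M := by exact_mod_cast hNM
    refine mul_le_mul_left (ENNReal.ofReal_le_ofReal ?_) _
    refine Real.rpow_le_rpow (le_min (hw z).le (by positivity)) ?_ he0.le
    exact min_le_min le_rfl (by linarith)
  have hle : ∀ z, ENNReal.ofReal (w z ^ (1 + e)) ≤ ⨆ N, f N z := by
    intro z
    obtain ⟨N, hN⟩ := exists_nat_ge (w z)
    refine le_trans (le_of_eq ?_) (le_iSup (fun N => f N z) N)
    simp only [hf]
    rw [min_eq_left (by linarith), ← ENNReal.ofReal_mul (Real.rpow_nonneg (hw z).le _)]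
    congr 1
    rw [Real.rpow_add (hw z), Real.rpow_one, mul_comm]
  calc ∫⁻ z in sqn P, ENNReal.ofReal (w z ^ (1 + e)) ≤ ∫⁻ z in sqn P, ⨆ N, f N z :=
        lintegral_mono hle
    _ = ⨆ N, ∫⁻ z in sqn P, f N z := lintegral_iSup hfm hfmono
    _ ≤ _ := iSup_le fun N => rh_trunc w hw hm h1 h2 K hK1 hK P (N + 1) (by positivity)

theorem rh (w : ℂ → ℝ) (hw : ∀ z, 0 < w z) (hm : Measurable w)
    (h1 : LocallyIntegrable w volume)
    (h2 : LocallyIntegrable (fun z => (w z)⁻¹) volume) (K : ℝ) (hK1 : 1 ≤ K)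
    (hK : ∀ P : ℂ × ℤ, mn w P * mn (fun z => (w z)⁻¹) P ≤ K) (P : ℂ × ℤ) :
    IntegrableOn (fun z => w z ^ (1 + 1 / (64 * K))) (sqn P) volume ∧
      mn (fun z => w z ^ (1 + 1 / (64 * K))) P ≤ 2 * mn w P ^ (1 + 1 / (64 * K)) := by
  have h3 := rh_lint w hw hm h1 h2 K hK1 hK P
  set e : ℝ := 1 / (64 * K) with he
  have hwe0 : ∀ z, 0 ≤ w z ^ (1 + e) := fun z => Real.rpow_nonneg (hw z).le _
  have hmn0 : 0 ≤ mn w P := by
    unfold mn
    exact mul_nonneg (by positivity) (integral_nonneg fun z => (hw z).le)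
  rw [← ofReal_integral_eq_lintegral_ofReal (sq_integrable h1 P)
    (Eventually.of_forall fun z => (hw z).le), int_sqn, ← ENNReal.ofReal_mul
    (Real.rpow_nonneg hmn0 _)] at h3
  have e2 : (2 : ENNReal) = ENNReal.ofReal 2 := by norm_num
  rw [e2, ← ENNReal.ofReal_mul (by norm_num)] at h3
  have hmeas : Measurable fun z => w z ^ (1 + e) := hm.pow_const _
  have hint : IntegrableOn (fun z => w z ^ (1 + e)) (sqn P) volume := by
    refine ⟨hmeas.aestronglyMeasurable, ?_⟩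
    rw [hasFiniteIntegral_iff_ofReal (Eventually.of_forall hwe0)]
    exact h3.trans_lt ENNReal.ofReal_lt_top
  refine ⟨hint, ?_⟩
  rw [← ofReal_integral_eq_lintegral_ofReal hint (Eventually.of_forall hwe0),
    ENNReal.ofReal_le_ofReal_iff (by positivity), int_sqn] at h3
  have hp : (0 : ℝ) < (2 : ℝ) ^ P.2 * (2 : ℝ) ^ P.2 := by positivity
  have h4 : (2 : ℝ) ^ P.2 * (2 : ℝ) ^ P.2 * mn (fun z => w z ^ (1 + e)) P ≤
      (2 : ℝ) ^ P.2 * (2 : ℝ) ^ P.2 * (2 * mn w P ^ (1 + e)) := by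
    refine h3.trans (le_of_eq ?_)
    rcases eq_or_lt_of_le hmn0 with h0 | h0
    · rw [← h0, Real.zero_rpow (by positivity : e ≠ 0),
        Real.zero_rpow (by positivity : (1 + e) ≠ 0)]
      ring
    · rw [Real.rpow_add h0, Real.rpow_one]
      ring
  exact le_of_mul_le_mul_left h4 hp

theorem locInt_of_sq (u : ℂ → ℝ) (h : ∀ P : ℂ × ℤ, IntegrableOn u (sqn P) volume) :
    LocallyIntegrable u volume := by
  intro z
  refine ⟨sqn (⟨z.re - 1, z.im - 1⟩, 1), ?_, h _⟩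
  refine mem_of_superset (ball_mem_nhds z one_pos) fun y hy => ?_
  rw [mem_ball, dist_eq_norm] at hy
  have h3 := (Complex.abs_re_le_norm (y - z)).trans_lt hy
  have h4 := (Complex.abs_im_le_norm (y - z)).trans_lt hy
  rw [Complex.sub_re, abs_lt] at h3
  rw [Complex.sub_im, abs_lt] at h4
  change z.re - 1 ≤ y.re ∧ y.re < z.re - 1 + (2 : ℝ) ^ (1 : ℤ) ∧ z.im - 1 ≤ y.im ∧
    y.im < z.im - 1 + (2 : ℝ) ^ (1 : ℤ)
  rw [zpow_one]
  exact ⟨by linarith, by linarith, by linarith, by linarith⟩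

/-- the power `1 + 1 / (64 K)` of the weight -/
theorem power_weight (w : ℂ → ℝ) (hw : ∀ z, 0 < w z) (hm : Measurable w)
    (h1 : LocallyIntegrable w volume)
    (h2 : LocallyIntegrable (fun z => (w z)⁻¹) volume) (K : ℝ) (hK1 : 1 ≤ K)
    (hK : ∀ P : ℂ × ℤ, mn w P * mn (fun z => (w z)⁻¹) P ≤ K) :
    LocallyIntegrable (fun z => w z ^ (1 + 1 / (64 * K))) volume ∧
    LocallyIntegrable (fun z => (w z ^ (1 + 1 / (64 * K)))⁻¹) volume ∧
    ∀ P : ℂ × ℤ, mn (fun z => w z ^ (1 + 1 / (64 * K))) P *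
      mn (fun z => (w z ^ (1 + 1 / (64 * K)))⁻¹) P ≤ 8 * K := by
  have hK0 : 0 < K := by linarith
  set e : ℝ := 1 / (64 * K) with he
  have he0 : 0 < e := by positivity
  have hinv : (fun z => (w z ^ (1 + e))⁻¹) = fun z => ((w z)⁻¹) ^ (1 + e) := by
    funext z
    rw [Real.inv_rpow (hw z).le]
  have hw' : ∀ z, 0 < (w z)⁻¹ := fun z => inv_pos.2 (hw z)
  have hK' : ∀ P : ℂ × ℤ, mn (fun z => (w z)⁻¹) P * mn (fun z => ((w z)⁻¹)⁻¹) P ≤ K := by
    intro P
    simp only [inv_inv]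
    rw [mul_comm]
    exact hK P
  have h1' : LocallyIntegrable (fun z => ((w z)⁻¹)⁻¹) volume := by
    simp only [inv_inv]
    exact h1
  have a := fun P => rh w hw hm h1 h2 K hK1 hK P
  have b := fun P => rh (fun z => (w z)⁻¹) hw' hm.inv h2 h1' K hK1 hK' P
  rw [hinv]
  refine ⟨locInt_of_sq _ fun P => (a P).1, locInt_of_sq _ fun P => (b P).1, fun P => ?_⟩
  have m1 : 0 ≤ mn w P := by
    unfold mn
    exact mul_nonneg (by positivity) (integral_nonneg fun z => (hw z).le)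
  have m2 : 0 ≤ mn (fun z => (w z)⁻¹) P := by
    unfold mn
    exact mul_nonneg (by positivity) (integral_nonneg fun z => (hw' z).le)
  have m3 : 0 ≤ mn (fun z => ((w z)⁻¹) ^ (1 + e)) P := by
    unfold mn
    exact mul_nonneg (by positivity) (integral_nonneg fun z => Real.rpow_nonneg (hw' z).le _)
  have h2K := two_K_pow K hK1
  have hKe : K ^ e ≤ 2 := (Real.rpow_le_rpow hK0.le (by linarith) he0.le).trans h2K
  calc _ ≤ (2 * mn w P ^ (1 + e)) * (2 * mn (fun z => (w z)⁻¹) P ^ (1 + e)) :=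
        mul_le_mul (a P).2 (b P).2 m3 (by positivity)
    _ = 4 * (mn w P * mn (fun z => (w z)⁻¹) P) ^ (1 + e) := by
        rw [Real.mul_rpow m1 m2]
        ring
    _ ≤ 4 * K ^ (1 + e) := by
        have := Real.rpow_le_rpow (mul_nonneg m1 m2) (hK P) (by positivity : 0 ≤ 1 + e)
        linarith
    _ = 4 * (K * K ^ e) := by rw [Real.rpow_add hK0, Real.rpow_one]
    _ ≤ 8 * K := by nlinarith

end Pool.MP_75bf3e_an.RH
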