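import Pool.Agent.Lib_MP_75bf3e.Main2
import Pool.Agent.Lib_MP_75bf3e_rh.RH4
import Pool.Agent.Lib_MP_75bf3e_rh.L2
import Pool.Agent.Lib_MP_75bf3e_rh.Interp

/-! # The refined bilinear estimate for `p = 2` -/

set_option autoImplicit false

open MeasureTheory Filter Topology

namespace Pool.MP_75bf3e_an.RH

open Pool.MP_75bf3e_an.BT

theorem enorm_rpow_two (a : ℂ) : ‖a‖ₑ ^ (2 : ℝ) = ENNReal.ofReal (‖a‖ ^ 2) := by
  rw [← ofReal_norm, ENNReal.ofReal_rpow_of_nonneg (norm_nonneg _) (by norm_num), Real.rpow_two]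

theorem min8 (K x : ℝ) (hK : 1 ≤ K) (hx : 0 ≤ x) : min (8 * K) (1 + x) ≤ 8 * min K (1 + x) := by
  rw [mul_min_of_nonneg _ _ (by norm_num : (0 : ℝ) ≤ 8)]
  apply min_le_min le_rfl
  nlinarith

theorem tst_ofReal {f : ℂ → ℝ} (hf : Tst f) : ContDiff ℝ ((⊤ : ℕ∞) : WithTop ℕ∞)
    (fun y => ((f y : ℝ) : ℂ)) ∧ HasCompactSupport (fun y => ((f y : ℝ) : ℂ)) :=
  ⟨Complex.ofRealCLM.contDiff.comp hf.1,
    hf.2.comp_left (g := fun t : ℝ => (t : ℂ)) Complex.ofReal_zero⟩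

/-- the bound for the power weight -/
theorem H1_aux : ∃ C : ℝ, 0 < C ∧ ∀ (u : ℂ → ℝ), (∀ z, 0 < u z) → LocallyIntegrable u volume →
    LocallyIntegrable (fun z => (u z)⁻¹) volume → ∀ K : ℝ, 1 ≤ K →
    (∀ P : ℂ × ℤ, mn u P * mn (fun z => (u z)⁻¹) P ≤ 8 * K) → ∀ n : ℕ, 1 ≤ n →
    ∀ a : ℂ → ℝ, Tst a →
      ∫⁻ z, ENNReal.ofReal (‖Tn n (fun y => ((a y : ℝ) : ℂ)) z‖ ^ 2 * u z) ≤
        ENNReal.ofReal ((C * n * K * √(min K (1 + Real.log n))) ^ 2 * ∫ z, a z ^ 2 * u z) := by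
  obtain ⟨C, hC, hb⟩ := bilin
  refine ⟨32 * C, by positivity, fun u hu h1 h2 K hK1 hK n hn a ha => ?_⟩
  have hn0 : (0 : ℝ) < n := by exact_mod_cast hn
  have hlog : 0 ≤ Real.log n := Real.log_natCast_nonneg n
  have hI : 0 ≤ ∫ z, a z ^ 2 * u z := integral_nonneg fun z => mul_nonneg (sq_nonneg _) (hu z).le
  have hM0 : 0 ≤ min K (1 + Real.log n) := le_min (by linarith) (by linarith)
  have hM0' : 0 ≤ min (8 * K) (1 + Real.log n) := le_min (by linarith) (by linarith)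
  have key := dual u hu h1 h2 (Tn n (fun y => ((a y : ℝ) : ℂ)))
    (continuous_Tn n _ (tst_ofReal ha).1 (tst_ofReal ha).2)
    (C * n * (8 * K) * √(min (8 * K) (1 + Real.log n)) * √(∫ z, a z ^ 2 * u z))
    (by positivity) (fun g hg hgs => by
      have := hb u hu h1 h2 (8 * K) hK (by linarith) a g ha.1 ha.2 hg hgs n hn
      rw [Real.sqrt_mul hI, ← mul_assoc] at this
      exact this)
  have e : ∀ z, ENNReal.ofReal (‖Tn n (fun y => ((a y : ℝ) : ℂ)) z‖ ^ 2 * u z) =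
      ‖Tn n (fun y => ((a y : ℝ) : ℂ)) z‖ₑ ^ (2 : ℝ) * ENNReal.ofReal (u z) := by
    intro z
    rw [enorm_rpow_two, ENNReal.ofReal_mul (sq_nonneg _)]
  simp only [e]
  refine key.trans (ENNReal.ofReal_le_ofReal ?_)
  have h8 := min8 K (Real.log n) hK1 hlog
  calc 2 * (C * n * (8 * K) * √(min (8 * K) (1 + Real.log n)) * √(∫ z, a z ^ 2 * u z)) ^ 2
      = 128 * (C * n * K) ^ 2 * min (8 * K) (1 + Real.log n) * ∫ z, a z ^ 2 * u z := by
        rw [mul_pow, mul_pow, Real.sq_sqrt hM0', Real.sq_sqrt hI]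
        ring
    _ ≤ 128 * (C * n * K) ^ 2 * (8 * min K (1 + Real.log n)) * ∫ z, a z ^ 2 * u z := by
        gcongr
    _ = (32 * C * n * K * √(min K (1 + Real.log n))) ^ 2 * ∫ z, a z ^ 2 * u z := by
        rw [mul_pow _ (√(min K (1 + Real.log n))), Real.sq_sqrt hM0]
        ring

theorem norm2 : ∃ C : ℝ, 0 < C ∧ ∀ (w : ℂ → ℝ), (∀ z, 0 < w z) → Measurable w →
    LocallyIntegrable w volume → LocallyIntegrable (fun z => (w z)⁻¹) volume → ∀ K : ℝ, 1 ≤ K →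
    (∀ P : ℂ × ℤ, mn w P * mn (fun z => (w z)⁻¹) P ≤ K) → ∀ n : ℕ, 1 ≤ n →
    ∀ f : ℂ → ℝ, Tst f →
      ∫⁻ z, ENNReal.ofReal (‖Tn n (fun y => ((f y : ℝ) : ℂ)) z‖ ^ 2 * w z) ≤
        ENNReal.ofReal ((C * n * K * √(min K (1 + Real.log n)) * (n : ℝ) ^ (-(1 / (65 * K)))) ^ 2) *
          ∫⁻ z, ENNReal.ofReal (f z ^ 2 * w z) := by
  obtain ⟨C, hC, hb⟩ := H1_aux
  refine ⟨C + 2, by positivity, fun w hw hm h1 h2 K hK1 hK n hn f hf => ?_⟩
  have hK0 : 0 < K := by linarith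
  obtain ⟨u1, u2, u3⟩ := power_weight w hw hm h1 h2 K hK1 hK
  set e : ℝ := 1 / (64 * K) with he
  have he0 : 0 < e := by positivity
  set u : ℂ → ℝ := fun z => w z ^ (1 + e) with hu
  have hupos : ∀ z, 0 < u z := fun z => Real.rpow_pos_of_pos (hw z) _
  have hum : Measurable u := hm.pow_const _
  have hn0 : (0 : ℝ) < n := by exact_mod_cast hn
  have hn1 : (1 : ℝ) ≤ n := by exact_mod_cast hn
  have hlog : 0 ≤ Real.log n := Real.log_natCast_nonneg n
  have hM1 : 1 ≤ min K (1 + Real.log n) := le_min hK1 (by linarith)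
  have hsM1 : 1 ≤ √(min K (1 + Real.log n)) := Real.one_le_sqrt.2 hM1
  set A1 : ℝ := (C + 2) * n * K * √(min K (1 + Real.log n)) with hA1
  have hA12 : 2 * n ≤ A1 := by
    have h3 : (1 : ℝ) ≤ K * √(min K (1 + Real.log n)) := by nlinarith
    have h4 : 0 < (C + 2) * (n : ℝ) := by positivity
    calc 2 * (n : ℝ) ≤ (C + 2) * n := by nlinarith
      _ ≤ (C + 2) * n * (K * √(min K (1 + Real.log n))) := le_mul_of_one_le_right h4.le h3
      _ = A1 := by rw [hA1]; ring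
  have hA10 : 0 < A1 := by linarith
  set θ : ℝ := 1 / (1 + e) with hθ
  have hθ0 : 0 < θ := by positivity
  have hθ1 : θ < 1 := by
    rw [hθ, div_lt_one (by positivity)]
    linarith
  have huθ : ∀ z, u z ^ θ = w z := by
    intro z
    simp only [hu]
    rw [← Real.rpow_mul (hw z).le]
    have : (1 + e) * θ = 1 := by
      rw [hθ]
      field_simp
    rw [this, Real.rpow_one]
  have main := interp (fun a => Tn n (fun y => ((a y : ℝ) : ℂ)))
    (fun a b ha hb z => by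
      simp only [Complex.ofReal_add]
      exact Tn_add n _ _ (tst_ofReal ha).1 (tst_ofReal ha).2 (tst_ofReal hb).1 (tst_ofReal hb).2 z)
    (fun a ha => (continuous_Tn n _ (tst_ofReal ha).1 (tst_ofReal ha).2).measurable)
    u hupos hum u1 2 A1 (by norm_num) hA10
    (fun a ha => by
      have := l2 n a ha.1 ha.2
      simp only [enorm_rpow_two] at this
      exact this)
    (fun a ha => by
      refine (hb u hupos u1 u2 K hK1 u3 n hn a ha).trans (ENNReal.ofReal_le_ofReal ?_)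
      have hI : 0 ≤ ∫ z, a z ^ 2 * u z :=
        integral_nonneg fun z => mul_nonneg (sq_nonneg _) (hupos z).le
      refine mul_le_mul_of_nonneg_right ?_ hI
      refine pow_le_pow_left₀ (by positivity) ?_ 2
      rw [hA1]
      gcongr
      linarith)
    θ hθ0 hθ1 f hf
  simp only [huθ] at main
  refine main.trans (mul_le_mul_left (ENNReal.ofReal_le_ofReal ?_) _)
  refine pow_le_pow_left₀ (by positivity) ?_ 2
  -- 2^(1-θ) A1^θ ≤ A1 n^(-1/(65K))
  have e1 : (2 : ℝ) ^ (1 - θ) * A1 ^ θ = A1 * (2 / A1) ^ (1 - θ) := by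
    rw [Real.div_rpow (by norm_num) hA10.le]
    have : A1 = A1 ^ θ * A1 ^ (1 - θ) := by
      rw [← Real.rpow_add hA10]
      have : θ + (1 - θ) = 1 := by ring
      rw [this, Real.rpow_one]
    have h5 : 0 < A1 ^ (1 - θ) := Real.rpow_pos_of_pos hA10 _
    rw [mul_div_assoc', eq_div_iff h5.ne']
    nth_rewrite 3 [this]
    ring
  rw [e1]
  refine mul_le_mul_of_nonneg_left ?_ hA10.le
  have h6 : 2 / A1 ≤ (n : ℝ)⁻¹ := by
    rw [div_le_iff₀ hA10, inv_mul_eq_div, le_div_iff₀ hn0]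
    exact hA12
  calc (2 / A1) ^ (1 - θ) ≤ ((n : ℝ)⁻¹) ^ (1 - θ) :=
        Real.rpow_le_rpow (by positivity) h6 (by linarith)
    _ = (n : ℝ) ^ (-(1 - θ)) := by
        rw [Real.inv_rpow hn0.le, Real.rpow_neg hn0.le]
    _ ≤ (n : ℝ) ^ (-(1 / (65 * K))) := by
        refine Real.rpow_le_rpow_of_exponent_le hn1 ?_
        have h7 : 1 / (65 * K) ≤ 1 - θ := by
          have h8 : 1 - θ = 1 / (64 * K + 1) := by
            rw [hθ, he]
            field_simp
            ring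
          rw [h8]
          apply one_div_le_one_div_of_le (by positivity)
          linarith
        linarith

theorem meas_version (w : ℂ → ℝ) (hw : ∀ z, 0 < w z) (h : AEStronglyMeasurable w volume) :
    ∃ w' : ℂ → ℝ, (∀ z, 0 < w' z) ∧ Measurable w' ∧ w' =ᵐ[volume] w := by
  classical
  let v := h.mk w
  have hv : Measurable v := h.stronglyMeasurable_mk.measurable
  have hs : MeasurableSet {z | 0 < v z} := measurableSet_lt measurable_const hv
  refine ⟨fun z => if 0 < v z then v z else 1, fun z => ?_, hv.ite hs measurable_const, ?_⟩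
  · by_cases h1 : 0 < v z
    · simp [h1]
    · simp [h1]
  · filter_upwards [h.ae_eq_mk] with z hz
    have h2 : 0 < v z := by
      show 0 < h.mk w z
      rw [← hz]
      exact hw z
    rw [if_pos h2]
    exact hz.symm

theorem li_congr {u v : ℂ → ℝ} (hu : LocallyIntegrable u volume) (h : v =ᵐ[volume] u) :
    LocallyIntegrable v volume := by
  intro x
  obtain ⟨s, hs, hi⟩ := hu x
  exact ⟨s, hs, hi.congr (ae_restrict_of_ae h.symm)⟩

theorem mn_congr {u v : ℂ → ℝ} (h : v =ᵐ[volume] u) (P : ℂ × ℤ) : mn v P = mn u P := by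
  unfold mn
  rw [integral_congr_ae (ae_restrict_of_ae h)]

theorem cs_pair (h : ℂ → ℂ) (g w : ℂ → ℝ) (hh : Continuous h) (hg : Continuous g)
    (hw : ∀ z, 0 < w z) (hm : Measurable w) (A B : ℝ) (hA : 0 ≤ A) (hB : 0 ≤ B)
    (hA' : ∫⁻ z, ENNReal.ofReal (‖h z‖ ^ 2 * w z) ≤ ENNReal.ofReal A)
    (hB' : ∫⁻ z, ENNReal.ofReal (g z ^ 2 * (w z)⁻¹) ≤ ENNReal.ofReal B) :
    ‖∫ z, h z * ((g z : ℝ) : ℂ)‖ ≤ √(A * B) := by
  have hpq : (2 : ℝ).HolderConjugate 2 := by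
    rw [Real.holderConjugate_iff]
    norm_num
  have hsw : ∀ z, 0 < √(w z) := fun z => Real.sqrt_pos.2 (hw z)
  have mF : Measurable fun z => ENNReal.ofReal (‖h z‖ * √(w z)) :=
    (hh.norm.measurable.mul hm.sqrt).ennreal_ofReal
  have mG : Measurable fun z => ENNReal.ofReal (|g z| * (√(w z))⁻¹) :=
    (hg.abs.measurable.mul hm.sqrt.inv).ennreal_ofReal
  have hol := ENNReal.lintegral_mul_le_Lp_mul_Lq (volume : Measure ℂ) hpq mF.aemeasurable
    mG.aemeasurable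
  have e1 : ∀ z, ENNReal.ofReal (‖h z‖ * √(w z)) ^ (2 : ℝ) = ENNReal.ofReal (‖h z‖ ^ 2 * w z) := by
    intro z
    rw [ENNReal.ofReal_rpow_of_nonneg (mul_nonneg (norm_nonneg _) (hsw z).le) (by norm_num),
      Real.rpow_two, mul_pow, Real.sq_sqrt (hw z).le]
  have e2 : ∀ z, ENNReal.ofReal (|g z| * (√(w z))⁻¹) ^ (2 : ℝ) =
      ENNReal.ofReal (g z ^ 2 * (w z)⁻¹) := by
    intro z
    rw [ENNReal.ofReal_rpow_of_nonneg (mul_nonneg (abs_nonneg _) (inv_pos.2 (hsw z)).le)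
      (by norm_num), Real.rpow_two, mul_pow, inv_pow, Real.sq_sqrt (hw z).le, sq_abs]
  simp only [e1, e2] at hol
  have e3 : ∀ z, ‖h z * ((g z : ℝ) : ℂ)‖ₑ = ((fun z => ENNReal.ofReal (‖h z‖ * √(w z))) *
      fun z => ENNReal.ofReal (|g z| * (√(w z))⁻¹)) z := by
    intro z
    simp only [Pi.mul_apply]
    rw [← ENNReal.ofReal_mul (mul_nonneg (norm_nonneg _) (hsw z).le), ← ofReal_norm, norm_mul,
      Complex.norm_real, Real.norm_eq_abs]
    congr 1
    have := (hsw z).ne'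
    field_simp
  have h1 : ‖∫ z, h z * ((g z : ℝ) : ℂ)‖ₑ ≤ ENNReal.ofReal (√(A * B)) := by
    refine (enorm_integral_le_lintegral_enorm _).trans ?_
    simp only [e3]
    refine hol.trans ?_
    calc _ ≤ (ENNReal.ofReal A) ^ (1 / (2 : ℝ)) * (ENNReal.ofReal B) ^ (1 / (2 : ℝ)) :=
          mul_le_mul' (ENNReal.rpow_le_rpow hA' (by norm_num))
            (ENNReal.rpow_le_rpow hB' (by norm_num))
      _ = ENNReal.ofReal (√(A * B)) := by
          rw [ENNReal.ofReal_rpow_of_nonneg hA (by norm_num),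
            ENNReal.ofReal_rpow_of_nonneg hB (by norm_num),
            ← ENNReal.ofReal_mul (Real.rpow_nonneg hA _), ← Real.mul_rpow hA hB,
            Real.sqrt_eq_rpow]
  rw [← ofReal_norm] at h1
  exact (ENNReal.ofReal_le_ofReal_iff (Real.sqrt_nonneg _)).1 h1

theorem bilin2 : ∃ C : ℝ, 0 < C ∧ ∀ (w : ℂ → ℝ), (∀ z, 0 < w z) → LocallyIntegrable w volume →
    LocallyIntegrable (fun z => (w z)⁻¹) volume → ∀ K : ℝ,
    (∀ P : ℂ × ℤ, mn w P * mn (fun z => (w z)⁻¹) P ≤ K) → 1 ≤ K →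
    ∀ (f g : ℂ → ℝ), ContDiff ℝ ((⊤ : ℕ∞) : WithTop ℕ∞) f → HasCompactSupport f → Continuous g →
    HasCompactSupport g → ∀ (n : ℕ), 1 ≤ n →
    ‖∫ x : ℂ, Tn n (fun y => ((f y : ℝ) : ℂ)) x * ((g x : ℝ) : ℂ)‖
      ≤ C * n * K * √(min K (1 + Real.log n)) * (n : ℝ) ^ (-(1 / (65 * K))) *
        √((∫ z, f z ^ 2 * w z) * ∫ z, g z ^ 2 * (w z)⁻¹) := by
  obtain ⟨C, hC, hb⟩ := norm2
  refine ⟨C, hC, fun w0 hw0 h10 h20 K hK0 hK1 f g hf hfs hg hgs n hn => ?_⟩
  obtain ⟨w, hw, hm, hae⟩ := meas_version w0 hw0 h10.aestronglyMeasurable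
  have hae2 : (fun z => (w z)⁻¹) =ᵐ[volume] fun z => (w0 z)⁻¹ :=
    hae.mono fun z hz => by simp only [hz]
  have h1 : LocallyIntegrable w volume := li_congr h10 hae
  have h2 : LocallyIntegrable (fun z => (w z)⁻¹) volume := li_congr h20 hae2
  have hK : ∀ P : ℂ × ℤ, mn w P * mn (fun z => (w z)⁻¹) P ≤ K := by
    intro P
    rw [mn_congr hae P, mn_congr hae2 P]
    exact hK0 P
  have eF : ∫ z, f z ^ 2 * w0 z = ∫ z, f z ^ 2 * w z :=
    integral_congr_ae (hae.mono fun z hz => by simp only [hz])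
  have eG : ∫ z, g z ^ 2 * (w0 z)⁻¹ = ∫ z, g z ^ 2 * (w z)⁻¹ :=
    integral_congr_ae (hae.mono fun z hz => by simp only [hz])
  rw [eF, eG]
  have hfT : Tst f := ⟨hf, hfs⟩
  have hF0 : 0 ≤ ∫ z, f z ^ 2 * w z := integral_nonneg fun z => mul_nonneg (sq_nonneg _) (hw z).le
  have hG0 : 0 ≤ ∫ z, g z ^ 2 * (w z)⁻¹ :=
    integral_nonneg fun z => mul_nonneg (sq_nonneg _) (inv_pos.2 (hw z)).le
  have hn0 : (0 : ℝ) < n := by exact_mod_cast hn
  have hlog : 0 ≤ Real.log n := Real.log_natCast_nonneg n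
  set D : ℝ := C * n * K * √(min K (1 + Real.log n)) * (n : ℝ) ^ (-(1 / (65 * K))) with hD
  have hD0 : 0 ≤ D := by
    have := Real.rpow_nonneg hn0.le (-(1 / (65 * K)))
    have : 0 < K := by linarith
    positivity
  have b := hb w hw hm h1 h2 K hK1 hK n hn f hfT
  rw [← ofReal_integral_eq_lintegral_ofReal (hfT.sq_int h1)
    (Eventually.of_forall fun z => mul_nonneg (sq_nonneg _) (hw z).le),
    ← ENNReal.ofReal_mul (sq_nonneg _)] at b
  have iG : Integrable (fun z => g z ^ 2 * (w z)⁻¹) volume := by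
    have hs : HasCompactSupport (fun z => g z ^ 2) :=
      hgs.comp_left (g := fun t : ℝ => t ^ 2) (by norm_num)
    have := h2.integrable_smul_left_of_hasCompactSupport (g := fun z => g z ^ 2) (hg.pow 2) hs
    simpa [smul_eq_mul] using this
  have b2 : ∫⁻ z, ENNReal.ofReal (g z ^ 2 * (w z)⁻¹) ≤
      ENNReal.ofReal (∫ z, g z ^ 2 * (w z)⁻¹) := by
    rw [← ofReal_integral_eq_lintegral_ofReal iG
      (Eventually.of_forall fun z => mul_nonneg (sq_nonneg _) (inv_pos.2 (hw z)).le)]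
  have b3 := cs_pair (Tn n (fun y => ((f y : ℝ) : ℂ))) g w
    (continuous_Tn n _ (tst_ofReal hfT).1 (tst_ofReal hfT).2) hg hw hm _ _
    (mul_nonneg (sq_nonneg D) hF0) hG0 b b2
  refine b3.trans (le_of_eq ?_)
  rw [mul_assoc (D ^ 2), Real.sqrt_mul (sq_nonneg D), Real.sqrt_sq hD0]

end Pool.MP_75bf3e_an.RH
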