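import Pool.Agent.Lib_MP_75bf3e.ExP
import Pool.Agent.Lib_MP_75bf3e_rh.Bilin2

/-! # The refined bilinear estimate for all exponents -/

set_option autoImplicit false

open MeasureTheory

namespace Pool.MP_75bf3e_an.RH

open Pool.MP_75bf3e_an.BT

theorem mn_nonneg' (w : ℂ → ℝ) (hw : ∀ z, 0 ≤ w z) (P : ℂ × ℤ) : 0 ≤ mn w P := by
  unfold mn
  exact mul_nonneg (by positivity) (integral_nonneg fun z => hw z)

theorem bilinP2 (p : ℝ) (hp : 2 < p) : ∃ C c : ℝ, 0 < C ∧ 0 < c ∧ ∀ (w : ℂ → ℝ), (∀ z, 0 < w z) →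
    LocallyIntegrable w volume →
    LocallyIntegrable (fun z => w z ^ (-(1 / (p - 1)))) volume → ∀ K : ℝ, 1 ≤ K →
    (∀ P : ℂ × ℤ, mn w P * (mn (fun z => w z ^ (-(1 / (p - 1)))) P) ^ (p - 1) ≤ K) →
    ∀ (f g : ℂ → ℝ), ContDiff ℝ ((⊤ : ℕ∞) : WithTop ℕ∞) f → HasCompactSupport f → Continuous g →
    HasCompactSupport g → ∀ (n : ℕ), 1 ≤ n →
    ‖∫ x : ℂ, Tn n (fun y => ((f y : ℝ) : ℂ)) x * ((g x : ℝ) : ℂ)‖
      ≤ C * n * K * √(min K (1 + Real.log n)) * (n : ℝ) ^ (-(c / K)) *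
        (∫ z, |f z| ^ p * w z) ^ (1 / p) *
        (∫ z, |g z| ^ (p / (p - 1)) * w z ^ (-(1 / (p - 1)))) ^ ((p - 1) / p) := by
  obtain ⟨C1, hC1, H1⟩ := bilin2
  obtain ⟨C2, hC2, H2⟩ := exists_W p hp
  refine ⟨C1 * (C2 + 1) * √(C2 + 1) * √C2, 1 / (65 * (C2 + 1)), by positivity, by positivity, ?_⟩
  intro w0 hw0 h10 h20 K hK1 hK0 f g hf hfs hg hgs n hn
  -- measurable version
  obtain ⟨w, hw, hwm, hae⟩ := meas_version w0 hw0 h10.aestronglyMeasurable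
  have hae2 : (fun z => w z ^ (-(1 / (p - 1)))) =ᵐ[volume] fun z => w0 z ^ (-(1 / (p - 1))) :=
    hae.mono fun z hz => by simp only [hz]
  have h1 : LocallyIntegrable w volume := li_congr h10 hae
  have h2 : LocallyIntegrable (fun z => w z ^ (-(1 / (p - 1)))) volume := li_congr h20 hae2
  have hK : ∀ P : ℂ × ℤ, mn w P * (mn (fun z => w z ^ (-(1 / (p - 1)))) P) ^ (p - 1) ≤ K := by
    intro P
    rw [mn_congr hae P, mn_congr hae2 P]
    exact hK0 P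
  have eF : ∫ z, |f z| ^ p * w0 z = ∫ z, |f z| ^ p * w z :=
    integral_congr_ae (hae.mono fun z hz => by simp only [hz])
  have eG : ∫ z, |g z| ^ (p / (p - 1)) * w0 z ^ (-(1 / (p - 1))) =
      ∫ z, |g z| ^ (p / (p - 1)) * w z ^ (-(1 / (p - 1))) :=
    integral_congr_ae (hae.mono fun z hz => by simp only [hz])
  rw [eF, eG]
  have hF0 : 0 ≤ ∫ z, |f z| ^ p * w z :=
    integral_nonneg fun z => mul_nonneg (Real.rpow_nonneg (abs_nonneg _) _) (hw z).le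
  have hG0 : 0 ≤ ∫ z, |g z| ^ (p / (p - 1)) * w z ^ (-(1 / (p - 1))) :=
    integral_nonneg fun z => mul_nonneg (Real.rpow_nonneg (abs_nonneg _) _)
      (Real.rpow_nonneg (hw z).le _)
  have hn0 : (0 : ℝ) ≤ n := Nat.cast_nonneg n
  have hlog : 0 ≤ Real.log n := Real.log_nonneg (by exact_mod_cast hn)
  by_cases hgz : ∃ z, g z ≠ 0
  · obtain ⟨W, W0, W1, W2, WA, Wg, Wf⟩ := H2 w hw hwm h1 h2 K hK g hg hgs hgz
    have b1 := H1 W W0 W1 W2 (max 1 (C2 * K)) (fun P => (WA P).trans (le_max_right _ _))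
      (le_max_left _ _) f g hf hfs hg hgs n hn
    refine b1.trans ?_
    have hf2 := Wf f hf.continuous hfs
    have hK0' : 0 < K := by linarith
    have m1 : max 1 (C2 * K) ≤ (C2 + 1) * K := by
      apply max_le
      · nlinarith
      · nlinarith
    have m2 : √(min (max 1 (C2 * K)) (1 + Real.log n)) ≤ √(C2 + 1) * √(min K (1 + Real.log n)) := by
      rw [← Real.sqrt_mul (by positivity)]
      apply Real.sqrt_le_sqrt
      rw [mul_min_of_nonneg _ _ (by positivity : (0 : ℝ) ≤ C2 + 1)]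
      apply min_le_min m1
      nlinarith
    have hi1 : 0 ≤ ∫ z, f z ^ 2 * W z :=
      integral_nonneg fun z => mul_nonneg (sq_nonneg _) (W0 z).le
    have hi2 : 0 ≤ ∫ z, g z ^ 2 * (W z)⁻¹ :=
      integral_nonneg fun z => mul_nonneg (sq_nonneg _) (inv_pos.2 (W0 z)).le
    generalize (∫ z, |f z| ^ p * w z) = F at *
    generalize (∫ z, |g z| ^ (p / (p - 1)) * w z ^ (-(1 / (p - 1)))) = G at *
    generalize (∫ z, f z ^ 2 * W z) = A at *
    generalize (∫ z, g z ^ 2 * (W z)⁻¹) = B at *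
    have m3 : √(A * B) ≤ √C2 * (F ^ (1 / p) * G ^ ((p - 1) / p)) := by
      have e1 : A * B ≤ C2 * F ^ (2 / p) * G ^ (1 - 2 / p) * G :=
        mul_le_mul hf2 Wg hi2 (by positivity)
      have hp0 : 0 < p := by linarith
      have e2 : G ^ (1 - 2 / p) * G = G ^ (2 * ((p - 1) / p)) := by
        have h : 1 - 2 / p + 1 ≠ 0 := by
          have : 2 / p < 1 := by rw [div_lt_one hp0]; exact hp
          linarith
        rw [← Real.rpow_add_one' hG0 h]
        congr 1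
        field_simp
        ring
      have e3 : F ^ (2 / p) = (F ^ (1 / p)) ^ (2 : ℕ) := by
        rw [← Real.rpow_natCast, ← Real.rpow_mul hF0]
        congr 1
        push_cast
        ring
      have e4 : G ^ (2 * ((p - 1) / p)) = (G ^ ((p - 1) / p)) ^ (2 : ℕ) := by
        rw [← Real.rpow_natCast, ← Real.rpow_mul hG0]
        congr 1
        push_cast
        ring
      have e5 : C2 * F ^ (2 / p) * G ^ (1 - 2 / p) * G =
          C2 * (F ^ (1 / p) * G ^ ((p - 1) / p)) ^ (2 : ℕ) := by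
        rw [mul_assoc (C2 * F ^ (2 / p)), e2, e3, e4]
        ring
      rw [e5] at e1
      calc √(A * B) ≤ √(C2 * (F ^ (1 / p) * G ^ ((p - 1) / p)) ^ (2 : ℕ)) := Real.sqrt_le_sqrt e1
        _ = √C2 * (F ^ (1 / p) * G ^ ((p - 1) / p)) := by
            rw [Real.sqrt_mul hC2.le, Real.sqrt_sq (by positivity)]
    have hn1 : (1 : ℝ) ≤ n := by exact_mod_cast hn
    have m4 : (n : ℝ) ^ (-(1 / (65 * max 1 (C2 * K)))) ≤ (n : ℝ) ^ (-(1 / (65 * (C2 + 1)) / K)) := by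
      refine Real.rpow_le_rpow_of_exponent_le hn1 (neg_le_neg ?_)
      rw [div_div]
      have h0 : (0 : ℝ) < max 1 (C2 * K) := lt_of_lt_of_le one_pos (le_max_left _ _)
      apply one_div_le_one_div_of_le (by positivity)
      nlinarith
    have hr1 : 0 ≤ (n : ℝ) ^ (-(1 / (65 * max 1 (C2 * K)))) := Real.rpow_nonneg hn0 _
    have hr2 : 0 ≤ (n : ℝ) ^ (-(1 / (65 * (C2 + 1)) / K)) := Real.rpow_nonneg hn0 _
    calc C1 * n * max 1 (C2 * K) * √(min (max 1 (C2 * K)) (1 + Real.log n)) *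
          (n : ℝ) ^ (-(1 / (65 * max 1 (C2 * K)))) * √(A * B)
        ≤ C1 * n * ((C2 + 1) * K) * (√(C2 + 1) * √(min K (1 + Real.log n))) *
          (n : ℝ) ^ (-(1 / (65 * (C2 + 1)) / K)) *
          (√C2 * (F ^ (1 / p) * G ^ ((p - 1) / p))) := by
          have hx : 0 ≤ C1 * (n : ℝ) := by positivity
          have hy : 0 ≤ C1 * (n : ℝ) * ((C2 + 1) * K) := by positivity
          refine mul_le_mul (mul_le_mul (mul_le_mul (mul_le_mul_of_nonneg_left m1 hx) m2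
            (Real.sqrt_nonneg _) hy) m4 hr1 ?_) m3 (Real.sqrt_nonneg _) ?_
          · positivity
          · positivity
      _ = _ := by ring
  · push Not at hgz
    have e0 : (fun x : ℂ => Tn n (fun y => ((f y : ℝ) : ℂ)) x * ((g x : ℝ) : ℂ)) = fun _ => 0 := by
      funext x
      rw [hgz x]
      simp
    rw [e0, integral_zero, norm_zero]
    have : 0 < K := by linarith
    have hr2 : 0 ≤ (n : ℝ) ^ (-(1 / (65 * (C2 + 1)) / K)) := Real.rpow_nonneg hn0 _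
    positivity

theorem bilinP2' (p : ℝ) (hp : 1 < p) (hp2 : p < 2) : ∃ C c : ℝ, 0 < C ∧ 0 < c ∧
    ∀ (w : ℂ → ℝ), (∀ z, 0 < w z) →
    LocallyIntegrable w volume →
    LocallyIntegrable (fun z => w z ^ (-(1 / (p - 1)))) volume → ∀ K : ℝ, 1 ≤ K →
    (∀ P : ℂ × ℤ, mn w P * (mn (fun z => w z ^ (-(1 / (p - 1)))) P) ^ (p - 1) ≤ K) →
    ∀ (f g : ℂ → ℝ), ContDiff ℝ ((⊤ : ℕ∞) : WithTop ℕ∞) f → HasCompactSupport f →
    ContDiff ℝ ((⊤ : ℕ∞) : WithTop ℕ∞) g → HasCompactSupport g → ∀ (n : ℕ), 1 ≤ n →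
    ‖∫ x : ℂ, Tn n (fun y => ((f y : ℝ) : ℂ)) x * ((g x : ℝ) : ℂ)‖
      ≤ C * n * K ^ (1 / (p - 1)) * √(min (K ^ (1 / (p - 1))) (1 + Real.log n)) *
        (n : ℝ) ^ (-(c / K ^ (1 / (p - 1)))) * (∫ z, |f z| ^ p * w z) ^ (1 / p) *
        (∫ z, |g z| ^ (p / (p - 1)) * w z ^ (-(1 / (p - 1)))) ^ ((p - 1) / p) := by
  have hp1 : 0 < p - 1 := by linarith
  have hp0 : 0 < p := by linarith
  have hq : 2 < p / (p - 1) := by
    rw [lt_div_iff₀ hp1]
    linarith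
  have q1 : p / (p - 1) - 1 = 1 / (p - 1) := by field_simp; ring
  have q2 : 1 / (p / (p - 1) - 1) = p - 1 := by rw [q1]; field_simp
  have q3 : p / (p - 1) / (p / (p - 1) - 1) = p := by rw [q1]; field_simp
  have q4 : 1 / (p / (p - 1)) = (p - 1) / p := by field_simp
  have q5 : (p / (p - 1) - 1) / (p / (p - 1)) = 1 / p := by rw [q1]; field_simp
  obtain ⟨C, c, hC, hc, H⟩ := bilinP2 (p / (p - 1)) hq
  refine ⟨C, c, hC, hc, ?_⟩
  intro w hw h1 h2 K hK1 hK f g hf hfs hg hgs n hn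
  have hs : ∀ z, 0 < w z ^ (-(1 / (p - 1))) := fun z => Real.rpow_pos_of_pos (hw z) _
  have e1 : ∀ z, (w z ^ (-(1 / (p - 1)))) ^ (-(1 / (p / (p - 1) - 1))) = w z := by
    intro z
    rw [q2, ← Real.rpow_mul (hw z).le]
    have : -(1 / (p - 1)) * -(p - 1) = 1 := by field_simp
    rw [this, Real.rpow_one]
  have e2 : (fun z => (w z ^ (-(1 / (p - 1)))) ^ (-(1 / (p / (p - 1) - 1)))) = w := funext e1
  have b1 := H (fun z => w z ^ (-(1 / (p - 1)))) hs h2 (by rw [e2]; exact h1) (K ^ (1 / (p - 1)))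
    (Real.one_le_rpow hK1 (by positivity)) (fun P => by
      rw [e2, q1]
      have n1 := mn_nonneg' w (fun z => (hw z).le) P
      have n2 := mn_nonneg' _ (fun z => (hs z).le) P
      have h3 := Real.rpow_le_rpow (mul_nonneg n1 (Real.rpow_nonneg n2 _)) (hK P)
        (by positivity : (0 : ℝ) ≤ 1 / (p - 1))
      rw [Real.mul_rpow n1 (Real.rpow_nonneg n2 _), ← Real.rpow_mul n2] at h3
      have e3 : (p - 1) * (1 / (p - 1)) = 1 := by field_simp
      rw [e3, Real.rpow_one, mul_comm] at h3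
      exact h3) g f hg hgs hf.continuous hfs n hn
  simp only [e1, q3, q4, q5] at b1
  have hF : ContDiff ℝ ((⊤ : ℕ∞) : WithTop ℕ∞) (fun y => ((f y : ℝ) : ℂ)) :=
    Complex.ofRealCLM.contDiff.comp hf
  have hG : ContDiff ℝ ((⊤ : ℕ∞) : WithTop ℕ∞) (fun y => ((g y : ℝ) : ℂ)) :=
    Complex.ofRealCLM.contDiff.comp hg
  have hFs : HasCompactSupport (fun y => ((f y : ℝ) : ℂ)) :=
    hfs.comp_left (g := fun r : ℝ => (r : ℂ)) Complex.ofReal_zero
  have hGs : HasCompactSupport (fun y => ((g y : ℝ) : ℂ)) :=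
    hgs.comp_left (g := fun r : ℝ => (r : ℂ)) Complex.ofReal_zero
  rw [Tn_symm n _ _ hF hFs hG hGs]
  have e4 : (fun x : ℂ => ((f x : ℝ) : ℂ) * Tn n (fun y => ((g y : ℝ) : ℂ)) x) =
      fun x : ℂ => Tn n (fun y => ((g y : ℝ) : ℂ)) x * ((f x : ℝ) : ℂ) :=
    funext fun x => mul_comm _ _
  rw [e4]
  calc _ ≤ _ := b1
    _ = _ := by ring

theorem bilAll2 (p : ℝ) (hp : 1 < p) : ∃ C c : ℝ, 0 < C ∧ 0 < c ∧ ∀ (w : ℂ → ℝ),
    (∀ z, 0 < w z) → LocallyIntegrable w volume →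
    LocallyIntegrable (fun z => w z ^ (-(1 / (p - 1)))) volume → ∀ K : ℝ, 1 ≤ K →
    (∀ P : ℂ × ℤ, mn w P * (mn (fun z => w z ^ (-(1 / (p - 1)))) P) ^ (p - 1) ≤ K) →
    ∀ (f g : ℂ → ℝ), ContDiff ℝ ((⊤ : ℕ∞) : WithTop ℕ∞) f → HasCompactSupport f →
    ContDiff ℝ ((⊤ : ℕ∞) : WithTop ℕ∞) g → HasCompactSupport g → ∀ (n : ℕ), 1 ≤ n →
    ‖∫ x : ℂ, Tn n (fun y => ((f y : ℝ) : ℂ)) x * ((g x : ℝ) : ℂ)‖
      ≤ C * n * K ^ (max 1 (1 / (p - 1))) *
        √(min (K ^ (max 1 (1 / (p - 1)))) (1 + Real.log n)) *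
        (n : ℝ) ^ (-(c / K ^ (max 1 (1 / (p - 1))))) * (∫ z, |f z| ^ p * w z) ^ (1 / p) *
        (∫ z, |g z| ^ (p / (p - 1)) * w z ^ (-(1 / (p - 1)))) ^ ((p - 1) / p) := by
  rcases lt_trichotomy p 2 with h | h | h
  · obtain ⟨C, c, hC, hc, H⟩ := bilinP2' p hp h
    refine ⟨C, c, hC, hc, ?_⟩
    intro w hw h1 h2 K hK1 hK f g hf hfs hg hgs n hn
    have he : max 1 (1 / (p - 1)) = 1 / (p - 1) := by
      apply max_eq_right
      rw [le_div_iff₀ (by linarith)]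
      linarith
    rw [he]
    exact H w hw h1 h2 K hK1 hK f g hf hfs hg hgs n hn
  · subst h
    obtain ⟨C, hC, H⟩ := bilin2
    refine ⟨C, 1 / 65, hC, by norm_num, ?_⟩
    intro w hw h1 h2 K hK1 hK f g hf hfs hg hgs n hn
    have ee : (-(1 / ((2 : ℝ) - 1))) = -1 := by norm_num
    have e1 : ((2 : ℝ) - 1) = 1 := by norm_num
    have e2 : max 1 (1 / ((2 : ℝ) - 1)) = 1 := by norm_num

    simp only [ee, Real.rpow_neg_one] at h2 hK ⊢
    simp only [e1, Real.rpow_one] at hK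
    rw [e2, Real.rpow_one]
    have b := H w hw h1 h2 K hK hK1 f g hf hfs hg.continuous hgs n hn
    have hI1 : 0 ≤ ∫ z, f z ^ 2 * w z :=
      integral_nonneg fun z => mul_nonneg (sq_nonneg _) (hw z).le
    rw [Real.sqrt_mul hI1] at b
    simp only [e1, div_one, Real.rpow_two, sq_abs]
    rw [← Real.sqrt_eq_rpow, ← Real.sqrt_eq_rpow]
    have e4 : (1 : ℝ) / 65 / K = 1 / (65 * K) := by rw [div_div]
    rw [e4]
    calc _ ≤ _ := b
      _ = _ := by ring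
  · obtain ⟨C, c, hC, hc, H⟩ := bilinP2 p h
    refine ⟨C, c, hC, hc, ?_⟩
    intro w hw h1 h2 K hK1 hK f g hf hfs hg hgs n hn
    have he : max 1 (1 / (p - 1)) = 1 := by
      apply max_eq_left
      rw [div_le_iff₀ (by linarith)]
      linarith
    rw [he, Real.rpow_one]
    exact H w hw h1 h2 K hK1 hK f g hf hfs hg.continuous hgs n hn

end Pool.MP_75bf3e_an.RH
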