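import Pool.Agent.Lib_MP_75bf3e.ExMain
import Pool.Agent.Lib_MP_75bf3e_rh.ExP2

/-! # The refined theorem for all exponents -/

set_option autoImplicit false

open MeasureTheory

namespace Pool.MP_75bf3e_an.RH

open Pool.MP_75bf3e_an.BT

theorem realP2 (p : ℝ) (hp : 1 < p) : ∃ C c : ℝ, 0 < C ∧ 0 < c ∧ ∀ n : ℕ, 1 ≤ n →
    ∀ w : ℂ → ℝ, (∀ z, 0 < w z) → LocallyIntegrable w volume →
    LocallyIntegrable (fun z => w z ^ (-(1 / (p - 1)))) volume → ∀ K : ℝ,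
    (∀ c : ℂ, ∀ r : ℝ, 0 < r →
      ((volume (Metric.ball c r)).toReal⁻¹ * ∫ z in Metric.ball c r, w z) *
        ((volume (Metric.ball c r)).toReal⁻¹ *
          ∫ z in Metric.ball c r, w z ^ (-(1 / (p - 1)))) ^ (p - 1) ≤ K) →
    ∀ f : ℂ → ℝ, ContDiff ℝ ((⊤ : ℕ∞) : WithTop ℕ∞) f → HasCompactSupport f →
    ∫⁻ z : ℂ, ‖Tn n (fun y => ((f y : ℝ) : ℂ)) z‖ₑ ^ p * ENNReal.ofReal (w z)
      ≤ ENNReal.ofReal ((C * (n : ℝ) * K ^ (max 1 (1 / (p - 1))) *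
          √(min (K ^ (max 1 (1 / (p - 1)))) (1 + Real.log (n : ℝ))) *
          (n : ℝ) ^ (-(c / K ^ (max 1 (1 / (p - 1)))))) ^ p) *
          ∫⁻ z : ℂ, ‖f z‖ₑ ^ p * ENNReal.ofReal (w z) := by
  obtain ⟨C, c, hC, hc, H⟩ := bilAll2 p hp
  set e : ℝ := max 1 (1 / (p - 1)) with hedef
  have he1 : 1 ≤ e := le_max_left _ _
  have hp0 : 0 < p := by linarith
  set c0 : ℝ := ((2 : ℝ) ^ p) ^ e with hc0def
  have h2p : (1 : ℝ) ≤ (2 : ℝ) ^ p := Real.one_le_rpow (by norm_num) hp0.le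
  have hc01 : 1 ≤ c0 := Real.one_le_rpow h2p (by linarith)
  have hc00 : 0 < c0 := by linarith
  refine ⟨2 * (C * c0 * √c0), c / c0, by positivity, by positivity, ?_⟩
  intro n hn w hw h1 h2 K hK f hf hfs
  have hK1 : 1 ≤ K := one_le_ap p hp w hw h1 h2 K hK
  have hK0 : 0 < K := by linarith
  have hK' : 1 ≤ (2 : ℝ) ^ p * K := by nlinarith
  have hn1 : (1 : ℝ) ≤ (n : ℝ) := by exact_mod_cast hn
  have hlog : 0 ≤ Real.log (n : ℝ) := Real.log_nonneg hn1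
  set Q : ℝ := K ^ e with hQdef
  have hQ1 : 1 ≤ Q := Real.one_le_rpow hK1 (by linarith)
  have hQ' : ((2 : ℝ) ^ p * K) ^ e = c0 * Q := by
    rw [Real.mul_rpow (by linarith) hK0.le]
  set M : ℝ := min Q (1 + Real.log (n : ℝ)) with hMdef
  have hM0 : 0 ≤ M := le_min (by linarith) (by linarith)
  have hmin : min (c0 * Q) (1 + Real.log (n : ℝ)) ≤ c0 * M := by
    rw [hMdef, mul_min_of_nonneg _ _ hc00.le]
    apply min_le_min le_rfl
    nlinarith
  have hsq : √(min (c0 * Q) (1 + Real.log (n : ℝ))) ≤ √c0 * √M := by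
    rw [← Real.sqrt_mul hc00.le]
    exact Real.sqrt_le_sqrt hmin
  set F : ℝ := ∫ z, |f z| ^ p * w z with hF
  have hF0 : 0 ≤ F := integral_nonneg fun z =>
    mul_nonneg (Real.rpow_nonneg (abs_nonneg _) _) (hw z).le
  have hfC : ContDiff ℝ ((⊤ : ℕ∞) : WithTop ℕ∞) (fun y => ((f y : ℝ) : ℂ)) :=
    Complex.ofRealCLM.contDiff.comp hf
  have hfsC : HasCompactSupport (fun y => ((f y : ℝ) : ℂ)) :=
    hfs.comp_left (g := fun t : ℝ => (t : ℂ)) Complex.ofReal_zero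
  have hR0 : 0 ≤ (n : ℝ) ^ (-(c / c0 / Q)) := Real.rpow_nonneg (by linarith) _
  have hRe : (n : ℝ) ^ (-(c / (c0 * Q))) = (n : ℝ) ^ (-(c / c0 / Q)) := by rw [div_div]
  set R : ℝ := (n : ℝ) ^ (-(c / c0 / Q)) with hRdef
  set B : ℝ := C * c0 * √c0 * n * Q * √M * R * F ^ (1 / p) with hBdef
  have hB0 : 0 ≤ B := by
    have : 0 ≤ F ^ (1 / p) := Real.rpow_nonneg hF0 _
    positivity
  have hd := dualP p hp w hw h1 h2 (Tn n (fun y => ((f y : ℝ) : ℂ)))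
    (continuous_Tn _ _ hfC hfsC) B hB0 (by
      intro g hg hgs
      have h3 := H w hw h1 h2 ((2 : ℝ) ^ p * K) hK' (ap_sq p hp w hw h1 h2 K hK) f g hf hfs hg hgs
        n hn
      rw [hQ', hRe] at h3
      refine h3.trans ?_
      have hG0 : 0 ≤ (∫ z, |g z| ^ (p / (p - 1)) * w z ^ (-(1 / (p - 1)))) ^ ((p - 1) / p) := by
        apply Real.rpow_nonneg
        exact integral_nonneg fun z =>
          mul_nonneg (Real.rpow_nonneg (abs_nonneg _) _) (Real.rpow_nonneg (hw z).le _)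
      apply mul_le_mul_of_nonneg_right _ hG0
      have hF1 : 0 ≤ F ^ (1 / p) := Real.rpow_nonneg hF0 _
      calc C * n * (c0 * Q) * √(min (c0 * Q) (1 + Real.log (n : ℝ))) * R * F ^ (1 / p)
          ≤ C * n * (c0 * Q) * (√c0 * √M) * R * F ^ (1 / p) := by
            apply mul_le_mul_of_nonneg_right _ hF1
            apply mul_le_mul_of_nonneg_right _ hR0
            apply mul_le_mul_of_nonneg_left hsq
            positivity
        _ = B := by rw [hBdef]; ring)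
  refine hd.trans (le_of_eq ?_)
  have e1 : (2 * B) ^ p = (2 * (C * c0 * √c0) * n * Q * √M * R) ^ p * F := by
    have : 2 * B = (2 * (C * c0 * √c0) * n * Q * √M * R) * F ^ (1 / p) := by rw [hBdef]; ring
    rw [this, Real.mul_rpow (by positivity) (Real.rpow_nonneg hF0 _), ← Real.rpow_mul hF0,
      one_div_mul_cancel hp0.ne', Real.rpow_one]
  rw [e1, ENNReal.ofReal_mul (by positivity)]
  congr 1
  have iF : Integrable (fun z => |f z| ^ p * w z) volume := by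
    have hc : Continuous (fun z => |f z| ^ p) :=
      (continuous_abs.comp hf.continuous).rpow_const fun _ => Or.inr hp0.le
    have hs : HasCompactSupport (fun z => |f z| ^ p) := by
      refine hfs.comp_left (g := fun t : ℝ => |t| ^ p) ?_
      simp [Real.zero_rpow hp0.ne']
    exact h1.integrable_smul_left_of_hasCompactSupport hc hs
  rw [hF, ofReal_integral_eq_lintegral_ofReal iF]
  · refine lintegral_congr fun z => ?_
    rw [ENNReal.ofReal_mul (Real.rpow_nonneg (abs_nonneg _) _), ← ofReal_norm,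
      ENNReal.ofReal_rpow_of_nonneg (norm_nonneg _) hp0.le, Real.norm_eq_abs]
  · exact Filter.Eventually.of_forall fun z =>
      mul_nonneg (Real.rpow_nonneg (abs_nonneg _) _) (hw z).le

theorem posP2 (p : ℝ) (hp : 1 < p) : ∃ C c : ℝ, 0 < C ∧ 0 < c ∧ ∀ n : ℕ, 1 ≤ n →
    ∀ w : ℂ → ℝ, (∀ z, 0 < w z) → LocallyIntegrable w volume →
    LocallyIntegrable (fun z => w z ^ (-(1 / (p - 1)))) volume → ∀ K : ℝ,
    (∀ c : ℂ, ∀ r : ℝ, 0 < r →
      ((volume (Metric.ball c r)).toReal⁻¹ * ∫ z in Metric.ball c r, w z) *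
        ((volume (Metric.ball c r)).toReal⁻¹ *
          ∫ z in Metric.ball c r, w z ^ (-(1 / (p - 1)))) ^ (p - 1) ≤ K) →
    ∀ f : ℂ → ℂ, ContDiff ℝ ((⊤ : ℕ∞) : WithTop ℕ∞) f → HasCompactSupport f →
    ∫⁻ z : ℂ, ‖Tn n f z‖ₑ ^ p * ENNReal.ofReal (w z)
      ≤ ENNReal.ofReal ((C * (n : ℝ) * K ^ (max 1 (1 / (p - 1))) *
          √(min (K ^ (max 1 (1 / (p - 1)))) (1 + Real.log (n : ℝ))) *
          (n : ℝ) ^ (-(c / K ^ (max 1 (1 / (p - 1)))))) ^ p) *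
          ∫⁻ z : ℂ, ‖f z‖ₑ ^ p * ENNReal.ofReal (w z) := by
  obtain ⟨C, c, hC, hc, H⟩ := realP2 p hp
  have hp0 : 0 < p := by linarith
  refine ⟨2 * C, c, by positivity, hc, ?_⟩
  intro n hn w hw h1 h2 K hK f hf hfs
  have hn1 : (1 : ℝ) ≤ (n : ℝ) := by exact_mod_cast hn
  have hK1 : 1 ≤ K := one_le_ap p hp w hw h1 h2 K hK
  set Q : ℝ := K ^ (max 1 (1 / (p - 1))) with hQdef
  have hQ0 : 0 ≤ Q := Real.rpow_nonneg (by linarith) _
  set R : ℝ := √(min Q (1 + Real.log (n : ℝ))) with hR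
  have hS0 : 0 ≤ (n : ℝ) ^ (-(c / Q)) := Real.rpow_nonneg (by linarith) _
  set S : ℝ := (n : ℝ) ^ (-(c / Q)) with hS
  have hre : ContDiff ℝ ((⊤ : ℕ∞) : WithTop ℕ∞) (fun z => (f z).re) :=
    Complex.reCLM.contDiff.comp hf
  have him : ContDiff ℝ ((⊤ : ℕ∞) : WithTop ℕ∞) (fun z => (f z).im) :=
    Complex.imCLM.contDiff.comp hf
  have hres : HasCompactSupport (fun z => (f z).re) := hfs.comp_left (g := Complex.re) rfl
  have hims : HasCompactSupport (fun z => (f z).im) := hfs.comp_left (g := Complex.im) rfl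
  have hreC : ContDiff ℝ ((⊤ : ℕ∞) : WithTop ℕ∞) (fun z => (((f z).re : ℝ) : ℂ)) :=
    Complex.ofRealCLM.contDiff.comp hre
  have himC : ContDiff ℝ ((⊤ : ℕ∞) : WithTop ℕ∞) (fun z => (((f z).im : ℝ) : ℂ)) :=
    Complex.ofRealCLM.contDiff.comp him
  have hresC : HasCompactSupport (fun z => (((f z).re : ℝ) : ℂ)) :=
    hres.comp_left (g := fun t : ℝ => (t : ℂ)) Complex.ofReal_zero
  have himsC : HasCompactSupport (fun z => (((f z).im : ℝ) : ℂ)) :=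
    hims.comp_left (g := fun t : ℝ => (t : ℂ)) Complex.ofReal_zero
  have himIC : ContDiff ℝ ((⊤ : ℕ∞) : WithTop ℕ∞) (fun z => Complex.I * (((f z).im : ℝ) : ℂ)) :=
    contDiff_const.mul himC
  have himIsC : HasCompactSupport (fun z => Complex.I * (((f z).im : ℝ) : ℂ)) :=
    himsC.mul_left
  have hsplit : ∀ z, Tn n f z = Tn n (fun z => (((f z).re : ℝ) : ℂ)) z
      + Complex.I * Tn n (fun z => (((f z).im : ℝ) : ℂ)) z := by
    intro z
    rw [← Tn_smul, ← Tn_add n _ _ hreC hresC himIC himIsC]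
    congr 1
    funext x
    rw [mul_comm Complex.I]
    exact (Complex.re_add_im (f x)).symm
  have hA := H n hn w hw h1 h2 K hK (fun z => (f z).re) hre hres
  have hB := H n hn w hw h1 h2 K hK (fun z => (f z).im) him hims
  set I0 : ENNReal := ∫⁻ z : ℂ, ‖f z‖ₑ ^ p * ENNReal.ofReal (w z) with hI0
  set E : ENNReal := ENNReal.ofReal ((C * (n : ℝ) * Q * R * S) ^ p) with hE
  have hA' : ∫⁻ z : ℂ, ‖Tn n (fun z => (((f z).re : ℝ) : ℂ)) z‖ₑ ^ p * ENNReal.ofReal (w z)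
      ≤ E * I0 := by
    refine hA.trans (mul_le_mul_right ?_ _)
    refine lintegral_mono fun z => mul_le_mul_left (ENNReal.rpow_le_rpow ?_ hp0.le) _
    rw [enorm_le_iff_norm_le, Real.norm_eq_abs]
    exact Complex.abs_re_le_norm _
  have hB' : ∫⁻ z : ℂ, ‖Tn n (fun z => (((f z).im : ℝ) : ℂ)) z‖ₑ ^ p * ENNReal.ofReal (w z)
      ≤ E * I0 := by
    refine hB.trans (mul_le_mul_right ?_ _)
    refine lintegral_mono fun z => mul_le_mul_left (ENNReal.rpow_le_rpow ?_ hp0.le) _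
    rw [enorm_le_iff_norm_le, Real.norm_eq_abs]
    exact Complex.abs_im_le_norm _
  have hpt : ∀ z, ‖Tn n f z‖ₑ ^ p * ENNReal.ofReal (w z)
      ≤ 2 ^ (p - 1) * (‖Tn n (fun z => (((f z).re : ℝ) : ℂ)) z‖ₑ ^ p * ENNReal.ofReal (w z)
        + ‖Tn n (fun z => (((f z).im : ℝ) : ℂ)) z‖ₑ ^ p * ENNReal.ofReal (w z)) := by
    intro z
    rw [hsplit z, ← add_mul, ← mul_assoc]
    refine mul_le_mul_left ?_ _
    refine le_trans (ENNReal.rpow_le_rpow (enorm_add_le _ _) hp0.le) ?_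
    have h5 : ‖Complex.I * Tn n (fun z => (((f z).im : ℝ) : ℂ)) z‖ₑ
        = ‖Tn n (fun z => (((f z).im : ℝ) : ℂ)) z‖ₑ := by
      rw [enorm_mul]
      have : ‖Complex.I‖ₑ = 1 := by
        rw [← ofReal_norm, Complex.norm_I, ENNReal.ofReal_one]
      rw [this, one_mul]
    rw [h5]
    exact ENNReal.rpow_add_le_mul_rpow_add_rpow _ _ hp.le
  have hm1 : Measurable (fun z => ‖Tn n (fun z => (((f z).re : ℝ) : ℂ)) z‖ₑ ^ p) :=
    (continuous_Tn _ _ hreC hresC).measurable.enorm.pow_const _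
  have hmw : AEMeasurable (fun z => ENNReal.ofReal (w z)) volume :=
    h1.aestronglyMeasurable.aemeasurable.ennreal_ofReal
  have hm2 : AEMeasurable (fun z => ‖Tn n (fun z => (((f z).re : ℝ) : ℂ)) z‖ₑ ^ p *
      ENNReal.ofReal (w z)) volume := hm1.aemeasurable.mul hmw
  calc ∫⁻ z : ℂ, ‖Tn n f z‖ₑ ^ p * ENNReal.ofReal (w z)
      ≤ ∫⁻ z : ℂ, 2 ^ (p - 1) *
        (‖Tn n (fun z => (((f z).re : ℝ) : ℂ)) z‖ₑ ^ p * ENNReal.ofReal (w z)
        + ‖Tn n (fun z => (((f z).im : ℝ) : ℂ)) z‖ₑ ^ p * ENNReal.ofReal (w z)) :=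
        lintegral_mono hpt
    _ = 2 ^ (p - 1) * ((∫⁻ z : ℂ, ‖Tn n (fun z => (((f z).re : ℝ) : ℂ)) z‖ₑ ^ p *
          ENNReal.ofReal (w z))
        + ∫⁻ z : ℂ, ‖Tn n (fun z => (((f z).im : ℝ) : ℂ)) z‖ₑ ^ p * ENNReal.ofReal (w z)) := by
        rw [lintegral_const_mul' _ _ (ENNReal.rpow_ne_top_of_nonneg (by linarith) (by norm_num)),
          lintegral_add_left' hm2]
    _ ≤ 2 ^ (p - 1) * (E * I0 + E * I0) := by
        exact mul_le_mul_right (add_le_add hA' hB') _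
    _ = ENNReal.ofReal ((2 * C * (n : ℝ) * Q * R * S) ^ p) * I0 := by
        have h6 : (2 : ENNReal) ^ (p - 1) * (E * I0 + E * I0) = (2 : ENNReal) ^ p * E * I0 := by
          have : (2 : ENNReal) ^ p = 2 ^ (p - 1) * 2 := by
            conv_lhs => rw [show p = (p - 1) + 1 by ring]
            rw [ENNReal.rpow_add _ _ (by norm_num) (by norm_num), ENNReal.rpow_one]
          rw [this, ← two_mul]
          ring
        rw [h6]
        congr 1
        rw [hE]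
        have h7 : (2 : ENNReal) ^ p = ENNReal.ofReal ((2 : ℝ) ^ p) := by
          rw [← ENNReal.ofReal_rpow_of_pos (by norm_num)]
          norm_num
        rw [h7, ← ENNReal.ofReal_mul (by positivity), ← Real.mul_rpow (by norm_num) (by positivity)]
        congr 2
        ring

theorem mainP2 (p : ℝ) (hp : 1 < p) : ∃ C c : ℝ, 0 < C ∧ 0 < c ∧ ∀ n : ℤ, n ≠ 0 →
    ∀ w : ℂ → ℝ, (∀ z, 0 < w z) → LocallyIntegrable w volume →
    LocallyIntegrable (fun z => w z ^ (-(1 / (p - 1)))) volume → ∀ K : ℝ,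
    (∀ c : ℂ, ∀ r : ℝ, 0 < r →
      ((volume (Metric.ball c r)).toReal⁻¹ * ∫ z in Metric.ball c r, w z) *
        ((volume (Metric.ball c r)).toReal⁻¹ *
          ∫ z in Metric.ball c r, w z ^ (-(1 / (p - 1)))) ^ (p - 1) ≤ K) →
    ∀ f : ℂ → ℂ, ContDiff ℝ ((⊤ : ℕ∞) : WithTop ℕ∞) f → HasCompactSupport f →
    ∫⁻ z : ℂ, ‖Tn n f z‖ₑ ^ p * ENNReal.ofReal (w z)
      ≤ ENNReal.ofReal ((C * |(n : ℝ)| * K ^ (max 1 (1 / (p - 1))) *
          √(min (K ^ (max 1 (1 / (p - 1)))) (1 + Real.log |(n : ℝ)|)) *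
          |(n : ℝ)| ^ (-(c / K ^ (max 1 (1 / (p - 1)))))) ^ p) *
          ∫⁻ z : ℂ, ‖f z‖ₑ ^ p * ENNReal.ofReal (w z) := by
  obtain ⟨C, c, hC, hc, H⟩ := posP2 p hp
  refine ⟨C, c, hC, hc, ?_⟩
  intro n hn w hw h1 h2 K hK f hf hfs
  rcases lt_or_gt_of_ne hn with hneg | hpos
  · obtain ⟨m, rfl⟩ : ∃ m : ℕ, n = -(m : ℤ) := ⟨n.natAbs, by omega⟩
    have hm : 1 ≤ m := by omega
    have hf' : ContDiff ℝ ((⊤ : ℕ∞) : WithTop ℕ∞) (fun z => starRingEnd ℂ (f z)) :=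
      Complex.conjCLE.contDiff.comp hf
    have hfs' : HasCompactSupport (fun z => starRingEnd ℂ (f z)) :=
      hfs.comp_left (g := fun z : ℂ => starRingEnd ℂ z) (map_zero _)
    have h3 := H m hm w hw h1 h2 K hK (fun z => starRingEnd ℂ (f z)) hf' hfs'
    have e3 : ∀ z, ‖Tn (-(m : ℤ)) f z‖ₑ = ‖Tn (m : ℤ) (fun z => starRingEnd ℂ (f z)) z‖ₑ := by
      intro z
      have h4 := Tn_neg (m : ℤ) (fun z => starRingEnd ℂ (f z)) z
      simp only [Complex.conj_conj] at h4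
      rw [h4, ← ofReal_norm, RCLike.norm_conj, ofReal_norm]
    have e4 : ∀ z, ‖starRingEnd ℂ (f z)‖ₑ = ‖f z‖ₑ := by
      intro z
      rw [← ofReal_norm, RCLike.norm_conj, ofReal_norm]
    simp only [e4] at h3
    have e5 : |((-(m : ℤ) : ℤ) : ℝ)| = (m : ℝ) := by
      push_cast
      rw [abs_neg, abs_of_nonneg (by positivity)]
    simp only [e3]
    rw [e5]
    exact h3
  · obtain ⟨m, rfl⟩ : ∃ m : ℕ, n = (m : ℤ) := ⟨n.natAbs, by omega⟩
    have hm : 1 ≤ m := by omega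
    have e5 : |((m : ℤ) : ℝ)| = (m : ℝ) := by
      push_cast
      exact abs_of_nonneg (by positivity)
    rw [e5]
    exact H m hm w hw h1 h2 K hK f hf hfs

/-- the refined bound and the inequality of Q1 in the range `Q log Q ≤ c log |n|` -/
theorem mainP3 (p : ℝ) (hp : 1 < p) : ∃ C c : ℝ, 0 < C ∧ 0 < c ∧ ∀ n : ℤ, n ≠ 0 →
    ∀ w : ℂ → ℝ, (∀ z, 0 < w z) → LocallyIntegrable w volume →
    LocallyIntegrable (fun z => w z ^ (-(1 / (p - 1)))) volume → ∀ K : ℝ,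
    (∀ c : ℂ, ∀ r : ℝ, 0 < r →
      ((volume (Metric.ball c r)).toReal⁻¹ * ∫ z in Metric.ball c r, w z) *
        ((volume (Metric.ball c r)).toReal⁻¹ *
          ∫ z in Metric.ball c r, w z ^ (-(1 / (p - 1)))) ^ (p - 1) ≤ K) →
    ∀ f : ℂ → ℂ, ContDiff ℝ ((⊤ : ℕ∞) : WithTop ℕ∞) f → HasCompactSupport f →
    (∫⁻ z : ℂ, ‖Tn n f z‖ₑ ^ p * ENNReal.ofReal (w z)
      ≤ ENNReal.ofReal ((C * |(n : ℝ)| * K ^ (max 1 (1 / (p - 1))) *
          √(min (K ^ (max 1 (1 / (p - 1)))) (1 + Real.log |(n : ℝ)|)) *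
          |(n : ℝ)| ^ (-(c / K ^ (max 1 (1 / (p - 1)))))) ^ p) *
          ∫⁻ z : ℂ, ‖f z‖ₑ ^ p * ENNReal.ofReal (w z)) ∧
    (K ^ (max 1 (1 / (p - 1))) * Real.log (K ^ (max 1 (1 / (p - 1)))) ≤ c * Real.log |(n : ℝ)| →
      ∫⁻ z : ℂ, ‖Tn n f z‖ₑ ^ p * ENNReal.ofReal (w z)
      ≤ ENNReal.ofReal ((C * |(n : ℝ)| * K ^ (max 1 (1 / (p - 1)))) ^ p) *
          ∫⁻ z : ℂ, ‖f z‖ₑ ^ p * ENNReal.ofReal (w z)) := by
  obtain ⟨C, c, hC, hc, H⟩ := mainP2 p hp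
  refine ⟨C, c, hC, hc, ?_⟩
  intro n hn w hw h1 h2 K hK f hf hfs
  have h := H n hn w hw h1 h2 K hK f hf hfs
  refine ⟨h, fun hQ => h.trans (mul_le_mul_left (ENNReal.ofReal_le_ofReal ?_) _)⟩
  have hK1 : 1 ≤ K := one_le_ap p hp w hw h1 h2 K hK
  set Q : ℝ := K ^ (max 1 (1 / (p - 1))) with hQdef
  have hQ1 : 1 ≤ Q := Real.one_le_rpow hK1 (le_trans zero_le_one (le_max_left _ _))
  have hQ0 : 0 < Q := by linarith
  have hn1 : (1 : ℝ) ≤ |(n : ℝ)| := by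
    rw [← Int.cast_abs]
    exact_mod_cast Int.one_le_abs hn
  set N : ℝ := |(n : ℝ)| with hN
  have hN0 : 0 < N := by linarith
  have hlogN : 0 ≤ Real.log N := Real.log_nonneg hn1
  have hlogQ : 0 ≤ Real.log Q := Real.log_nonneg hQ1
  have hM0 : 0 ≤ min Q (1 + Real.log N) := le_min hQ0.le (by linarith)
  have hR0 : 0 ≤ N ^ (-(c / Q)) := Real.rpow_nonneg hN0.le _
  refine Real.rpow_le_rpow (by positivity) ?_ (by linarith)
  have key : √(min Q (1 + Real.log N)) * N ^ (-(c / Q)) ≤ 1 := by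
    have a1 : √(min Q (1 + Real.log N)) ≤ √Q := Real.sqrt_le_sqrt (min_le_left _ _)
    have a2 : √Q ≤ Q := by
      rw [Real.sqrt_le_left hQ0.le]
      nlinarith
    have a3 : Q * N ^ (-(c / Q)) ≤ 1 := by
      rw [Real.rpow_def_of_pos hN0, ← Real.exp_log hQ0, ← Real.exp_add, Real.exp_log hQ0]
      rw [← Real.exp_zero]
      apply Real.exp_le_exp.2
      have : Real.log Q ≤ Real.log N * (c / Q) := by
        rw [mul_div_assoc', le_div_iff₀ hQ0]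
        nlinarith
      linarith
    calc √(min Q (1 + Real.log N)) * N ^ (-(c / Q)) ≤ Q * N ^ (-(c / Q)) :=
          mul_le_mul_of_nonneg_right (a1.trans a2) hR0
      _ ≤ 1 := a3
  calc C * N * Q * √(min Q (1 + Real.log N)) * N ^ (-(c / Q))
      = C * N * Q * (√(min Q (1 + Real.log N)) * N ^ (-(c / Q))) := by ring
    _ ≤ C * N * Q * 1 := mul_le_mul_of_nonneg_left key (by positivity)
    _ = C * N * Q := mul_one _

end Pool.MP_75bf3e_an.RH
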