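import Pool.Agent.Lib_MP_75bf3e.Sq

/-! # The distribution inequality for `A_2` weights on dyadic squares -/

set_option autoImplicit false

open MeasureTheory Metric Filter Topology

namespace Pool.MP_75bf3e_an.RH

open Pool.MP_75bf3e_an.BT

/-- the union of the subsquares of generation at most `N` with mean above `l` -/
noncomputable def st (w : ℂ → ℝ) (l : ℝ) : ℕ → ℂ × ℤ → Set ℂ
  | 0, P => if l < mn w P then sqn P else ∅
  | N + 1, P => if l < mn w P then sqn P else ⋃ i : Fin 4, st w l N (chC i P)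

theorem st_sub (w : ℂ → ℝ) (l : ℝ) (N : ℕ) (P : ℂ × ℤ) : st w l N P ⊆ sqn P := by
  induction N generalizing P with
  | zero =>
    unfold st
    split_ifs
    · exact subset_rfl
    · exact Set.empty_subset _
  | succ N ih =>
    unfold st
    split_ifs
    · exact subset_rfl
    · exact Set.iUnion_subset fun i => (ih _).trans (sqn_chC_subset i P)

theorem measurableSet_st (w : ℂ → ℝ) (l : ℝ) (N : ℕ) (P : ℂ × ℤ) : MeasurableSet (st w l N P) := by
  induction N generalizing P with
  | zero =>
    unfold st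
    split_ifs
    · exact measurableSet_sq _ _
    · exact MeasurableSet.empty
  | succ N ih =>
    unfold st
    split_ifs
    · exact measurableSet_sq _ _
    · exact MeasurableSet.iUnion fun i => ih _

theorem st_mono (w : ℂ → ℝ) (l : ℝ) (N : ℕ) (P : ℂ × ℤ) : st w l N P ⊆ st w l (N + 1) P := by
  induction N generalizing P with
  | zero =>
    unfold st
    split_ifs
    · exact subset_rfl
    · exact Set.empty_subset _
  | succ N ih =>
    rw [st]
    conv_rhs => rw [st]
    split_ifs
    · exact subset_rfl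
    · exact Set.iUnion_mono fun i => ih _

theorem sq_integrable {F : ℂ → ℝ} (hF : LocallyIntegrable F volume) (P : ℂ × ℤ) :
    IntegrableOn F (sqn P) volume :=
  (hF.integrableOn_isCompact (isCompact_closedBall P.1 (2 * (2 : ℝ) ^ P.2))).mono_set
    (sq_subset_closedBall P.1 (by positivity))

theorem vol_sqn (P : ℂ × ℤ) : volume.real (sqn P) = (2 : ℝ) ^ P.2 * (2 : ℝ) ^ P.2 :=
  volume_real_sq _ (by positivity)

theorem vol_sqn_ne (P : ℂ × ℤ) : volume (sqn P) ≠ ⊤ := by
  unfold sqn
  rw [volume_sq _ (by positivity)]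
  exact ENNReal.ofReal_ne_top

theorem int_sqn (F : ℂ → ℝ) (P : ℂ × ℤ) :
    ∫ z in sqn P, F z = (2 : ℝ) ^ P.2 * (2 : ℝ) ^ P.2 * mn F P := by
  unfold mn
  have : (0 : ℝ) < (2 : ℝ) ^ P.2 * (2 : ℝ) ^ P.2 := by positivity
  field_simp

theorem mn_child_le (w : ℂ → ℝ) (hw : ∀ z, 0 < w z) (h1 : LocallyIntegrable w volume) (i : Fin 4)
    (P : ℂ × ℤ) : mn w (chC i P) ≤ 4 * mn w P := by
  have e1 := int_sqn w (chC i P)
  have e2 := int_sqn w P
  have h3 : ∫ z in sqn (chC i P), w z ≤ ∫ z in sqn P, w z :=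
    setIntegral_mono_set (sq_integrable h1 P) (Eventually.of_forall fun z => (hw z).le)
      (sqn_chC_subset i P).eventuallyLE
  rw [e1, e2] at h3
  have h4 : (chC i P).2 = P.2 - 1 := rfl
  have h5 : (2 : ℝ) ^ (P.2 - 1) = (2 : ℝ) ^ P.2 / 2 := by rw [zpow_sub₀ two_ne_zero, zpow_one]
  rw [h4, h5] at h3
  have hp : (0 : ℝ) < (2 : ℝ) ^ P.2 * (2 : ℝ) ^ P.2 := by positivity
  have h6 : (2 : ℝ) ^ P.2 * (2 : ℝ) ^ P.2 * mn w (chC i P) ≤
      (2 : ℝ) ^ P.2 * (2 : ℝ) ^ P.2 * (4 * mn w P) := by linarith
  exact le_of_mul_le_mul_left h6 hp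

/-- half of the square -/
theorem half_sq (w : ℂ → ℝ) (hw : ∀ z, 0 < w z) (hm : Measurable w)
    (h2 : LocallyIntegrable (fun z => (w z)⁻¹) volume) (K : ℝ) (hK1 : 1 ≤ K) (P : ℂ × ℤ)
    (hK : mn w P * mn (fun z => (w z)⁻¹) P ≤ K) (l : ℝ) (hl : 0 < l) (hP : l < mn w P) :
    volume.real (sqn P) ≤ 2 * volume.real (sqn P ∩ {z | l / (2 * K) < w z}) := by
  have hK0 : 0 < K := by linarith
  set A : Set ℂ := {z | l / (2 * K) < w z} with hA
  have hAm : MeasurableSet A := measurableSet_lt measurable_const hm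
  have hSm : MeasurableSet (sqn P) := measurableSet_sq _ _
  have hfin := vol_sqn_ne P
  have hfin1 : volume (sqn P \ A) ≠ ⊤ := ne_top_of_le_ne_top hfin (measure_mono Set.sdiff_subset)
  have h3 : ∫ z in sqn P \ A, (2 * K / l : ℝ) ≤ ∫ z in sqn P \ A, (w z)⁻¹ := by
    refine setIntegral_mono_on (integrableOn_const hfin1)
      ((sq_integrable h2 P).mono_set Set.sdiff_subset) (hSm.diff hAm) fun z hz => ?_
    have hz2 : w z ≤ l / (2 * K) := not_lt.1 hz.2
    calc 2 * K / l = (l / (2 * K))⁻¹ := by rw [inv_div]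
      _ ≤ (w z)⁻¹ := inv_anti₀ (hw z) hz2
  have h4 : ∫ z in sqn P \ A, (w z)⁻¹ ≤ ∫ z in sqn P, (w z)⁻¹ :=
    setIntegral_mono_set (sq_integrable h2 P)
      (Eventually.of_forall fun z => (inv_pos.2 (hw z)).le) Set.sdiff_subset.eventuallyLE
  rw [setIntegral_const, smul_eq_mul] at h3
  rw [int_sqn] at h4
  have hmn : 0 < mn w P := hl.trans hP
  have h5 : mn (fun z => (w z)⁻¹) P ≤ K / l := by
    have h6 : mn (fun z => (w z)⁻¹) P ≤ K / mn w P := by
      rw [le_div_iff₀ hmn, mul_comm]
      exact hK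
    exact h6.trans (div_le_div_of_nonneg_left hK0.le hl hP.le)
  have hv : volume.real (sqn P) = (2 : ℝ) ^ P.2 * (2 : ℝ) ^ P.2 := vol_sqn P
  rw [← hv] at h4
  have hv0 : 0 ≤ volume.real (sqn P) := measureReal_nonneg
  have h7 : volume.real (sqn P \ A) * (2 * K / l) ≤ volume.real (sqn P) * (K / l) :=
    (h3.trans h4).trans (mul_le_mul_of_nonneg_left h5 hv0)
  have h8 : volume.real (sqn P \ A) * 2 ≤ volume.real (sqn P) := by
    have hKl : 0 < K / l := by positivity
    have h9 : (volume.real (sqn P \ A) * 2) * (K / l) ≤ volume.real (sqn P) * (K / l) := by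
      calc _ = volume.real (sqn P \ A) * (2 * K / l) := by ring
        _ ≤ _ := h7
    exact le_of_mul_le_mul_right h9 hKl
  have h10 : volume.real (sqn P ∩ A) + volume.real (sqn P \ A) = volume.real (sqn P) :=
    measureReal_inter_add_sdiff hAm hfin
  linarith

theorem st_bound (w : ℂ → ℝ) (hw : ∀ z, 0 < w z) (hm : Measurable w)
    (h1 : LocallyIntegrable w volume)
    (h2 : LocallyIntegrable (fun z => (w z)⁻¹) volume) (K : ℝ) (hK1 : 1 ≤ K)
    (hK : ∀ P : ℂ × ℤ, mn w P * mn (fun z => (w z)⁻¹) P ≤ K) (l : ℝ) (hl : 0 < l) (N : ℕ)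
    (P : ℂ × ℤ) (hP : mn w P ≤ 4 * l) :
    ∫ z in st w l N P, w z ≤ 8 * l * volume.real (sqn P ∩ {z | l / (2 * K) < w z}) := by
  set A : Set ℂ := {z | l / (2 * K) < w z} with hA
  have hAm : MeasurableSet A := measurableSet_lt measurable_const hm
  have stop : ∀ P : ℂ × ℤ, mn w P ≤ 4 * l → l < mn w P →
      ∫ z in sqn P, w z ≤ 8 * l * volume.real (sqn P ∩ A) := by
    intro P hP h
    have h3 := half_sq w hw hm h2 K hK1 P (hK P) l hl h
    rw [int_sqn, ← vol_sqn]
    have hv0 : 0 ≤ volume.real (sqn P) := measureReal_nonneg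
    calc volume.real (sqn P) * mn w P ≤ volume.real (sqn P) * (4 * l) :=
          mul_le_mul_of_nonneg_left hP hv0
      _ ≤ (2 * volume.real (sqn P ∩ A)) * (4 * l) :=
          mul_le_mul_of_nonneg_right h3 (by positivity)
      _ = _ := by ring
  induction N generalizing P with
  | zero =>
    unfold st
    split_ifs with h
    · exact stop P hP h
    · rw [setIntegral_empty]
      positivity
  | succ N ih =>
    rw [st]
    split_ifs with h
    · exact stop P hP h
    · have hle : mn w P ≤ l := not_lt.1 h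
      have hch : ∀ i : Fin 4, ∫ z in st w l N (chC i P), w z ≤
          8 * l * volume.real (sqn (chC i P) ∩ A) := fun i =>
        ih (chC i P) ((mn_child_le w hw h1 i P).trans (by linarith))
      -- the indicator of `A` on the children
      have hdisj : Pairwise (Function.onFun Disjoint fun i : Fin 4 => sqn (chC i P)) := by
        intro i j hij
        rw [Function.onFun, Set.disjoint_left]
        intro z hi hj
        have h3 := indicator_sqn P z
        rw [Set.indicator_of_mem (sqn_chC_subset i P hi)] at h3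
        have h4 : ∑ k ∈ ({i, j} : Finset (Fin 4)), (sqn (chC k P)).indicator (fun _ => (1 : ℝ)) z ≤
            ∑ k, (sqn (chC k P)).indicator (fun _ => (1 : ℝ)) z :=
          Finset.sum_le_sum_of_subset_of_nonneg (Finset.subset_univ _) fun k _ _ =>
            Set.indicator_nonneg (fun _ _ => zero_le_one) _
        rw [Finset.sum_pair hij, Set.indicator_of_mem hi, Set.indicator_of_mem hj, h3] at h4
        norm_num at h4
      have e1 : ∫ z in ⋃ i : Fin 4, st w l N (chC i P), w z =
          ∑ i : Fin 4, ∫ z in st w l N (chC i P), w z := by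
        refine integral_iUnion_fintype (fun i => measurableSet_st w l N _) ?_ fun i =>
          (sq_integrable h1 (chC i P)).mono_set (st_sub w l N _)
        intro i j hij
        exact (hdisj hij).mono (st_sub w l N _) (st_sub w l N _)
      have e2 : volume.real (sqn P ∩ A) = ∑ i : Fin 4, volume.real (sqn (chC i P) ∩ A) := by
        have e3 := setIntegral_sqn P (A.indicator fun _ => (1 : ℝ))
          ((integrableOn_const (vol_sqn_ne P) (C := (1 : ℝ))).indicator hAm)
        have e4 : ∀ Q : ℂ × ℤ, ∫ z in sqn Q, A.indicator (fun _ => (1 : ℝ)) z =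
            volume.real (sqn Q ∩ A) := by
          intro Q
          rw [setIntegral_indicator hAm, setIntegral_const, smul_eq_mul, mul_one]
        simp only [e4] at e3
        exact e3
      rw [e1, e2, Finset.mul_sum]
      exact Finset.sum_le_sum fun i _ => hch i

end Pool.MP_75bf3e_an.RH
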