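import Pool.Agent.Lib_MP_75bf3e_rh.RH1

/-! # The distribution inequality in the limit -/

set_option autoImplicit false

open MeasureTheory Metric Filter Topology

namespace Pool.MP_75bf3e_an.RH

open Pool.MP_75bf3e_an.BT

theorem exists_ch (P : ℂ × ℤ) (z : ℂ) (hz : z ∈ sqn P) : ∃ i, z ∈ sqn (chC i P) := by
  by_contra hcon
  push Not at hcon
  have h := indicator_sqn P z
  rw [Set.indicator_of_mem hz, Finset.sum_eq_zero fun i _ => Set.indicator_of_notMem (hcon i) _] at h
  norm_num at h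

open Classical in
/-- the child of `P` which contains `z` -/
noncomputable def nx (z : ℂ) (P : ℂ × ℤ) : ℂ × ℤ :=
  if h : ∃ i, z ∈ sqn (chC i P) then chC h.choose P else chC 0 P

theorem nx_mem (z : ℂ) (P : ℂ × ℤ) (hz : z ∈ sqn P) : z ∈ sqn (nx z P) := by
  unfold nx
  rw [dif_pos (exists_ch P z hz)]
  exact (exists_ch P z hz).choose_spec

theorem nx_snd (z : ℂ) (P : ℂ × ℤ) : (nx z P).2 = P.2 - 1 := by
  unfold nx
  split_ifs <;> rfl

theorem nx_ch (z : ℂ) (P : ℂ × ℤ) : ∃ i, nx z P = chC i P := by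
  unfold nx
  split_ifs with h
  · exact ⟨h.choose, rfl⟩
  · exact ⟨0, rfl⟩

/-- the descendants of `P` which contain `z` -/
noncomputable def ds (z : ℂ) (P : ℂ × ℤ) (j : ℕ) : ℂ × ℤ := (nx z)^[j] P

theorem ds_succ (z : ℂ) (P : ℂ × ℤ) (j : ℕ) : ds z P (j + 1) = ds z (nx z P) j := by
  unfold ds
  rw [Function.iterate_succ, Function.comp]

theorem ds_mem (z : ℂ) (P : ℂ × ℤ) (hz : z ∈ sqn P) (j : ℕ) : z ∈ sqn (ds z P j) := by
  induction j generalizing P with
  | zero => exact hz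
  | succ j ih =>
    rw [ds_succ]
    exact ih _ (nx_mem z P hz)

theorem ds_snd (z : ℂ) (P : ℂ × ℤ) (j : ℕ) : (ds z P j).2 = P.2 - j := by
  induction j generalizing P with
  | zero => simp [ds]
  | succ j ih =>
    rw [ds_succ, ih, nx_snd]
    push_cast
    ring

theorem ds_le (w : ℂ → ℝ) (l : ℝ) (z : ℂ) (P : ℂ × ℤ) (hz : z ∈ sqn P)
    (h : ∀ N, z ∉ st w l N P) (j : ℕ) : mn w (ds z P j) ≤ l := by
  have h0 : ∀ P : ℂ × ℤ, z ∈ sqn P → (∀ N, z ∉ st w l N P) → mn w P ≤ l := by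
    intro P hz h
    by_contra hcon
    have h1 := h 0
    unfold st at h1
    rw [if_pos (not_le.1 hcon)] at h1
    exact h1 hz
  induction j generalizing P with
  | zero => exact h0 P hz h
  | succ j ih =>
    rw [ds_succ]
    refine ih _ (nx_mem z P hz) fun N hN => ?_
    have h1 := h (N + 1)
    rw [st, if_neg (not_lt.2 (h0 P hz h))] at h1
    obtain ⟨i, hi⟩ := nx_ch z P
    rw [hi] at hN
    exact h1 (Set.mem_iUnion.2 ⟨i, hN⟩)

/-- Lebesgue differentiation along the descendants -/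
theorem ds_tendsto (w : ℂ → ℝ) (h1 : LocallyIntegrable w volume) :
    ∀ᵐ z : ℂ ∂volume, ∀ P : ℂ × ℤ, z ∈ sqn P →
      Tendsto (fun j => mn w (ds z P j)) atTop (𝓝 (w z)) := by
  have hleb := IsUnifLocDoublingMeasure.ae_tendsto_average_norm_sub
    (μ := (volume : Measure ℂ)) h1 1
  filter_upwards [hleb] with z hz P hzP
  have hside : ∀ j : ℕ, (2 : ℝ) ^ (ds z P j).2 = (2 : ℝ) ^ P.2 * (1 / 2) ^ j := by
    intro j
    rw [ds_snd, zpow_sub₀ two_ne_zero, zpow_natCast]
    field_simp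
    rw [← mul_pow]
    norm_num
  have hδ : Tendsto (fun j : ℕ => 2 * (2 : ℝ) ^ (ds z P j).2) atTop (𝓝[>] 0) := by
    rw [tendsto_nhdsWithin_iff]
    constructor
    · have h2 : Tendsto (fun j : ℕ => 2 * ((2 : ℝ) ^ P.2 * (1 / 2) ^ j)) atTop (𝓝 0) := by
        have h3 := tendsto_pow_atTop_nhds_zero_of_lt_one (r := (1 / 2 : ℝ)) (by norm_num) (by norm_num)
        have h4 := (h3.const_mul ((2 : ℝ) ^ P.2)).const_mul 2
        rwa [mul_zero, mul_zero] at h4
      refine h2.congr fun j => ?_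
      rw [hside]
    · exact Eventually.of_forall fun j => by
        show (0 : ℝ) < 2 * (2 : ℝ) ^ (ds z P j).2
        positivity
  have hmem : ∀ᶠ j in atTop, z ∈ closedBall (ds z P j).1 (1 * (2 * (2 : ℝ) ^ (ds z P j).2)) := by
    refine Eventually.of_forall fun j => ?_
    rw [one_mul]
    exact sq_subset_closedBall _ (by positivity) (ds_mem z P hzP j)
  have hlim := hz (fun j => (ds z P j).1) (fun j => 2 * (2 : ℝ) ^ (ds z P j).2) hδ hmem
  rw [tendsto_iff_norm_sub_tendsto_zero]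
  have h5 : Tendsto (fun j : ℕ => 4 * Real.pi *
      ⨍ y in closedBall (ds z P j).1 (2 * (2 : ℝ) ^ (ds z P j).2), ‖w y - w z‖) atTop (𝓝 0) := by
    have := hlim.const_mul (4 * Real.pi)
    rwa [mul_zero] at this
  refine squeeze_zero (fun _ => norm_nonneg _) (fun j => ?_) h5
  set Q := ds z P j with hQ
  set s : ℝ := (2 : ℝ) ^ Q.2 with hs
  have hs0 : 0 < s := by positivity
  have hpi := Real.pi_pos
  have hvolB : volume.real (closedBall Q.1 (2 * s)) = Real.pi * (2 * s) ^ 2 := by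
    unfold Measure.real
    rw [Complex.volume_closedBall, ENNReal.toReal_mul, ENNReal.toReal_pow,
      ENNReal.toReal_ofReal (by positivity)]
    simp [mul_comm]
  have iB : IntegrableOn (fun y => ‖w y - w z‖) (closedBall Q.1 (2 * s)) volume := by
    have h6 : IntegrableOn (fun _ : ℂ => w z) (closedBall Q.1 (2 * s)) volume :=
      integrableOn_const measure_closedBall_lt_top.ne
    exact ((h1.integrableOn_isCompact (isCompact_closedBall _ _)).sub h6).norm
  have hsub : sqn Q ⊆ closedBall Q.1 (2 * s) := sq_subset_closedBall _ hs0.le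
  have e1 : mn w Q - w z = (s * s)⁻¹ * ∫ y in sqn Q, (w y - w z) := by
    have hc : IntegrableOn (fun _ : ℂ => w z) (sqn Q) volume := integrableOn_const (vol_sqn_ne Q)
    rw [integral_sub (sq_integrable h1 Q) hc, setIntegral_const, vol_sqn, int_sqn, smul_eq_mul]
    change mn w Q - w z = (s * s)⁻¹ * (s * s * mn w Q - s * s * w z)
    field_simp
  rw [e1, norm_mul, setAverage_eq, hvolB, smul_eq_mul]
  have h7 : ‖∫ y in sqn Q, (w y - w z)‖ ≤ ∫ y in closedBall Q.1 (2 * s), ‖w y - w z‖ :=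
    (norm_integral_le_integral_norm _).trans
      (setIntegral_mono_set iB (Eventually.of_forall fun y => norm_nonneg _) hsub.eventuallyLE)
  rw [Real.norm_of_nonneg (by positivity : 0 ≤ (s * s)⁻¹)]
  calc (s * s)⁻¹ * ‖∫ y in sqn Q, (w y - w z)‖
      ≤ (s * s)⁻¹ * ∫ y in closedBall Q.1 (2 * s), ‖w y - w z‖ := by gcongr
    _ = 4 * Real.pi * ((Real.pi * (2 * s) ^ 2)⁻¹ * ∫ y in closedBall Q.1 (2 * s), ‖w y - w z‖) := by
        field_simp
        ring

theorem ae_st (w : ℂ → ℝ) (h1 : LocallyIntegrable w volume) (l : ℝ) :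
    ∀ᵐ z : ℂ ∂volume, ∀ P : ℂ × ℤ, z ∈ sqn P → l < w z → ∃ N, z ∈ st w l N P := by
  filter_upwards [ds_tendsto w h1] with z hz P hzP hl
  by_contra hcon
  push Not at hcon
  exact absurd (le_of_tendsto (hz P hzP) (Eventually.of_forall fun j => ds_le w l z P hzP hcon j))
    (not_le.2 hl)

theorem dist_ineq (w : ℂ → ℝ) (hw : ∀ z, 0 < w z) (hm : Measurable w)
    (h1 : LocallyIntegrable w volume)
    (h2 : LocallyIntegrable (fun z => (w z)⁻¹) volume) (K : ℝ) (hK1 : 1 ≤ K)
    (hK : ∀ P : ℂ × ℤ, mn w P * mn (fun z => (w z)⁻¹) P ≤ K) (l : ℝ) (hl : 0 < l)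
    (P : ℂ × ℤ) (hP : mn w P ≤ 4 * l) :
    ∫⁻ z in sqn P ∩ {z | l < w z}, ENNReal.ofReal (w z) ≤
      ENNReal.ofReal (8 * l) * volume (sqn P ∩ {z | l / (2 * K) < w z}) := by
  have hmono : Monotone fun N => st w l N P := monotone_nat_of_le_succ fun N => st_mono w l N P
  have hsub : (sqn P ∩ {z | l < w z} : Set ℂ) ≤ᵐ[volume] ⋃ N, st w l N P := by
    filter_upwards [ae_st w h1 l] with z hz hz2
    exact Set.mem_iUnion.2 (hz P hz2.1 hz2.2)
  calc ∫⁻ z in sqn P ∩ {z | l < w z}, ENNReal.ofReal (w z)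
      ≤ ∫⁻ z in ⋃ N, st w l N P, ENNReal.ofReal (w z) := lintegral_mono_set' hsub
    _ = ⨆ N, ∫⁻ z in st w l N P, ENNReal.ofReal (w z) :=
        setLIntegral_iUnion_of_directed _ hmono.directed_le
    _ ≤ _ := by
        refine iSup_le fun N => ?_
        have h3 := st_bound w hw hm h1 h2 K hK1 hK l hl N P hP
        have hi : IntegrableOn w (st w l N P) volume := (sq_integrable h1 P).mono_set (st_sub w l N P)
        rw [← ofReal_integral_eq_lintegral_ofReal hi (Eventually.of_forall fun z => (hw z).le)]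
        have hfin : volume (sqn P ∩ {z | l / (2 * K) < w z}) ≠ ⊤ :=
          ne_top_of_le_ne_top (vol_sqn_ne P) (measure_mono Set.inter_subset_left)
        refine (ENNReal.ofReal_le_ofReal h3).trans (le_of_eq ?_)
        rw [ENNReal.ofReal_mul (by positivity), Measure.real, ENNReal.ofReal_toReal hfin]

end Pool.MP_75bf3e_an.RH
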