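import Pool.Agent.Lib_MP_75bf3e_rh.RH2

/-! # The reverse Hoelder inequality -/

set_option autoImplicit false

open MeasureTheory Metric Filter Topology

namespace Pool.MP_75bf3e_an.RH

open Pool.MP_75bf3e_an.BT

/-- `(2 K) ^ e ≤ 2` -/
theorem two_K_pow (K : ℝ) (hK1 : 1 ≤ K) : (2 * K) ^ (1 / (64 * K)) ≤ 2 := by
  have h0 : 0 < 2 * K := by linarith
  have h1 : Real.log (2 * K) ≤ 2 * K := (Real.log_le_sub_one_of_pos h0).trans (by linarith)
  rw [Real.rpow_def_of_pos h0]
  have h2 : Real.log (2 * K) * (1 / (64 * K)) ≤ 1 / 32 := by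
    rw [mul_one_div, div_le_iff₀ (by positivity)]
    linarith
  have h3 : Real.exp (1 / 32) ≤ 2 := by
    have h4 : (1 / 32 : ℝ) ≤ Real.log 2 := by
      have := Real.log_two_gt_d9
      linarith
    calc Real.exp (1 / 32) ≤ Real.exp (Real.log 2) := Real.exp_le_exp.2 h4
      _ = 2 := Real.exp_log (by norm_num)
  exact (Real.exp_le_exp.2 h2).trans h3

theorem layer (μ : Measure ℂ) [SFinite μ] (f : ℂ → ℝ) (hf : ∀ z, 0 ≤ f z) (hm : Measurable f) (p : ℝ)
    (hp : 0 < p) : ∫⁻ z, ENNReal.ofReal (f z ^ p) ∂μ =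
      ENNReal.ofReal p * ∫⁻ t in Set.Ioi 0, μ {a | t < f a} * ENNReal.ofReal (t ^ (p - 1)) :=
  lintegral_rpow_eq_lintegral_meas_lt_mul μ (Eventually.of_forall hf) hm.aemeasurable hp

theorem rh_trunc (w : ℂ → ℝ) (hw : ∀ z, 0 < w z) (hm : Measurable w)
    (h1 : LocallyIntegrable w volume)
    (h2 : LocallyIntegrable (fun z => (w z)⁻¹) volume) (K : ℝ) (hK1 : 1 ≤ K)
    (hK : ∀ P : ℂ × ℤ, mn w P * mn (fun z => (w z)⁻¹) P ≤ K) (P : ℂ × ℤ) (m : ℝ) (hm0 : 0 < m) :
    ∫⁻ z in sqn P, ENNReal.ofReal (min (w z) m ^ (1 / (64 * K))) * ENNReal.ofReal (w z) ≤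
      2 * (ENNReal.ofReal (mn w P ^ (1 / (64 * K))) * ∫⁻ z in sqn P, ENNReal.ofReal (w z)) := by
  set e : ℝ := 1 / (64 * K) with he
  have hK0 : 0 < K := by linarith
  have he0 : 0 < e := by positivity
  have he1 : e ≤ 1 / 64 := by
    rw [he]
    apply one_div_le_one_div_of_le (by norm_num)
    linarith
  have h2K : (2 * K) ^ e ≤ 2 := two_K_pow K hK1
  set l0 : ℝ := mn w P with hl0
  set W : Measure ℂ := (volume.restrict (sqn P)).withDensity fun z => ENNReal.ofReal (w z) with hW
  have hdens : Measurable fun z => ENNReal.ofReal (w z) := hm.ennreal_ofReal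
  have hWfin : ∫⁻ z in sqn P, ENNReal.ofReal (w z) ≠ ⊤ := by
    have h3 := (sq_integrable h1 P)
    rw [← ofReal_integral_eq_lintegral_ofReal h3 (Eventually.of_forall fun z => (hw z).le)]
    exact ENNReal.ofReal_ne_top
  have hl0p : 0 < l0 := by
    have h3 : 0 < ∫ z in sqn P, w z := by
      rw [setIntegral_pos_iff_support_of_nonneg_ae (Eventually.of_forall fun z => (hw z).le)
        (sq_integrable h1 P)]
      have : Function.support w ∩ sqn P = sqn P := by
        rw [Set.inter_eq_right]
        exact fun z _ => (hw z).ne'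
      rw [this]
      unfold sqn
      rw [volume_sq _ (by positivity)]
      exact ENNReal.ofReal_pos.2 (by positivity)
    rw [int_sqn] at h3
    exact pos_of_mul_pos_right h3 (by positivity)
  set X : ENNReal := ∫⁻ z in sqn P, ENNReal.ofReal (min (w z) m ^ e) * ENNReal.ofReal (w z) with hX
  have hXfin : X ≠ ⊤ := by
    have h3 : X ≤ ENNReal.ofReal (m ^ e) * ∫⁻ z in sqn P, ENNReal.ofReal (w z) := by
      rw [hX, ← lintegral_const_mul _ hdens]
      refine lintegral_mono fun z => ?_
      gcongr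
      · exact (lt_min (hw z) hm0).le
      · exact min_le_right _ _
    exact ne_top_of_le_ne_top (ENNReal.mul_ne_top ENNReal.ofReal_ne_top hWfin) h3
  have hminm : Measurable fun z => min (w z) m := hm.min measurable_const
  have hmin0 : ∀ z, 0 ≤ min (w z) m := fun z => (lt_min (hw z) hm0).le
  have eX : X = ENNReal.ofReal e * ∫⁻ t in Set.Ioi 0, W {a | t < min (w a) m} *
      ENNReal.ofReal (t ^ (e - 1)) := by
    rw [← layer W (fun z => min (w z) m) hmin0 hminm e he0, hW,
      lintegral_withDensity_eq_lintegral_mul _ hdens (hminm.pow_const e).ennreal_ofReal]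
    refine lintegral_congr fun z => ?_
    simp only [Pi.mul_apply]
    rw [mul_comm]
  set V : Measure ℂ := volume.restrict (sqn P) with hV
  have hW1 : ∀ t : ℝ, W {a | t < min (w a) m} ≤ ∫⁻ z in sqn P, ENNReal.ofReal (w z) := by
    intro t
    calc W {a | t < min (w a) m} ≤ W Set.univ := measure_mono (Set.subset_univ _)
      _ = _ := by rw [hW, withDensity_apply _ MeasurableSet.univ, Measure.restrict_univ]
  have hW2 : ∀ t : ℝ, l0 < t → W {a | t < min (w a) m} ≤
      ENNReal.ofReal (8 * t) * V {a | t < min (2 * K * w a) m} := by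
    intro t ht
    have ht0 : 0 < t := hl0p.trans ht
    rcases le_or_gt m t with hmt | hmt
    · have : {a | t < min (w a) m} = ∅ := by
        rw [Set.eq_empty_iff_forall_notMem]
        intro a ha
        have ha' : t < min (w a) m := ha
        exact absurd (ha'.trans_le (min_le_right _ _)) (not_lt.2 hmt)
      rw [this, measure_empty]
      exact zero_le
    · have hms : MeasurableSet {a | t < min (w a) m} := measurableSet_lt measurable_const hminm
      rw [hW, withDensity_apply _ hms, Measure.restrict_restrict hms, Set.inter_comm]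
      have h3 := dist_ineq w hw hm h1 h2 K hK1 hK t ht0 P (by linarith)
      have h4 : ∫⁻ z in sqn P ∩ {a | t < min (w a) m}, ENNReal.ofReal (w z) ≤
          ∫⁻ z in sqn P ∩ {z | t < w z}, ENNReal.ofReal (w z) := by
        refine lintegral_mono_set (Set.inter_subset_inter_right _ fun a ha => ?_)
        have ha' : t < min (w a) m := ha
        exact ha'.trans_le (min_le_left _ _)
      refine (h4.trans h3).trans (mul_le_mul_right ?_ _)
      rw [hV, Measure.restrict_apply (measurableSet_lt measurable_const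
        ((hm.const_mul _).min measurable_const)), Set.inter_comm]
      refine measure_mono (Set.inter_subset_inter_left _ fun a ha => ?_)
      have ha' : t / (2 * K) < w a := ha
      rw [div_lt_iff₀ (by positivity)] at ha'
      exact lt_min (by linarith) hmt
  -- the two parts
  have hsplit : ∫⁻ t in Set.Ioi 0, W {a | t < min (w a) m} * ENNReal.ofReal (t ^ (e - 1)) ≤
      (∫⁻ z in sqn P, ENNReal.ofReal (w z)) * (∫⁻ t in Set.Ioc 0 l0, ENNReal.ofReal (t ^ (e - 1))) +
      8 * ∫⁻ t in Set.Ioi 0, V {a | t < min (2 * K * w a) m} * ENNReal.ofReal (t ^ ((1 + e) - 1)) := by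
    have hU : Set.Ioi (0 : ℝ) = Set.Ioc 0 l0 ∪ Set.Ioi l0 := (Set.Ioc_union_Ioi_eq_Ioi hl0p.le).symm
    have hm1 : Measurable fun t : ℝ => ENNReal.ofReal (t ^ (e - 1)) :=
      (measurable_id.pow_const _).ennreal_ofReal
    rw [hU]
    refine (lintegral_union_le _ _ _).trans (add_le_add ?_ ?_)
    · rw [← lintegral_const_mul _ hm1]
      exact lintegral_mono fun t => mul_le_mul_left (hW1 t) _
    · have hcongr : ∀ t ∈ Set.Ioi l0, W {a | t < min (w a) m} * ENNReal.ofReal (t ^ (e - 1)) ≤
          8 * (V {a | t < min (2 * K * w a) m} * ENNReal.ofReal (t ^ ((1 + e) - 1))) := by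
        intro t ht
        have ht0 : 0 < t := hl0p.trans ht
        refine (mul_le_mul_left (hW2 t ht) _).trans (le_of_eq ?_)
        have h3 : ENNReal.ofReal (t ^ ((1 + e) - 1)) = ENNReal.ofReal t * ENNReal.ofReal (t ^ (e - 1)) := by
          rw [← ENNReal.ofReal_mul ht0.le]
          congr 1
          rw [show (1 + e) - 1 = 1 + (e - 1) by ring, Real.rpow_add ht0, Real.rpow_one]
        rw [h3, ENNReal.ofReal_mul (by norm_num)]
        have : ENNReal.ofReal 8 = 8 := by norm_num
        rw [this]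
        ring
      calc _ ≤ ∫⁻ t in Set.Ioi l0, 8 * (V {a | t < min (2 * K * w a) m} *
            ENNReal.ofReal (t ^ ((1 + e) - 1))) := setLIntegral_mono' measurableSet_Ioi hcongr
        _ = 8 * ∫⁻ t in Set.Ioi l0, (V {a | t < min (2 * K * w a) m} *
            ENNReal.ofReal (t ^ ((1 + e) - 1))) := lintegral_const_mul' _ _ (by norm_num)
        _ ≤ _ := by
            gcongr
            exact Set.subset_union_right
  have hfirst : ENNReal.ofReal e * ∫⁻ t in Set.Ioc 0 l0, ENNReal.ofReal (t ^ (e - 1)) =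
      ENNReal.ofReal (l0 ^ e) := by
    have hint : IntegrableOn (fun t : ℝ => t ^ (e - 1)) (Set.Ioc 0 l0) volume := by
      have := (intervalIntegral.intervalIntegrable_rpow' (a := 0) (b := l0)
        (show -1 < e - 1 by linarith))
      rwa [intervalIntegrable_iff_integrableOn_Ioc_of_le hl0p.le] at this
    have hnn : 0 ≤ᵐ[volume.restrict (Set.Ioc 0 l0)] fun t : ℝ => t ^ (e - 1) := by
      refine (ae_restrict_iff' measurableSet_Ioc).2 (Eventually.of_forall fun t ht => ?_)
      exact Real.rpow_nonneg ht.1.le _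
    rw [← ofReal_integral_eq_lintegral_ofReal hint hnn,
      ← intervalIntegral.integral_of_le hl0p.le, integral_rpow (Or.inl (by linarith : -1 < e - 1)),
      ← ENNReal.ofReal_mul he0.le, sub_add_cancel, Real.zero_rpow he0.ne', sub_zero]
    congr 1
    field_simp
  have hm2 : Measurable fun z => min (2 * K * w z) m := (hm.const_mul _).min measurable_const
  have hm20 : ∀ z, 0 ≤ min (2 * K * w z) m := fun z => by
    have := hw z
    exact le_min (by positivity) hm0.le
  have hsecond : ENNReal.ofReal (1 + e) * ∫⁻ t in Set.Ioi 0, V {a | t < min (2 * K * w a) m} *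
      ENNReal.ofReal (t ^ ((1 + e) - 1)) ≤ ENNReal.ofReal (4 * K) * X := by
    have hmm : Measurable fun z => ENNReal.ofReal (min (w z) m ^ e) * ENNReal.ofReal (w z) :=
      (hminm.pow_const e).ennreal_ofReal.mul hdens
    rw [← layer V (fun z => min (2 * K * w z) m) hm20 hm2 (1 + e) (by linarith), hX,
      ← lintegral_const_mul _ hmm]
    refine lintegral_mono fun z => ?_
    have hwz := hw z
    rw [← ENNReal.ofReal_mul (Real.rpow_nonneg (hmin0 z) _), ← ENNReal.ofReal_mul (by positivity)]
    refine ENNReal.ofReal_le_ofReal ?_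
    have h3 : 0 < min (2 * K * w z) m := lt_min (by positivity) hm0
    have h4 : min (2 * K * w z) m ≤ 2 * K * min (w z) m := by
      rw [mul_min_of_nonneg _ _ (by positivity)]
      refine min_le_min le_rfl ?_
      nlinarith
    have h5 : min (2 * K * w z) m ^ e ≤ 2 * min (w z) m ^ e := by
      calc min (2 * K * w z) m ^ e ≤ (2 * K * min (w z) m) ^ e :=
            Real.rpow_le_rpow h3.le h4 he0.le
        _ = (2 * K) ^ e * min (w z) m ^ e := Real.mul_rpow (by positivity) (hmin0 z)
        _ ≤ 2 * min (w z) m ^ e := mul_le_mul_of_nonneg_right h2K (Real.rpow_nonneg (hmin0 z) _)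
    rw [Real.rpow_add h3, Real.rpow_one]
    have h6 : 0 ≤ min (w z) m ^ e := Real.rpow_nonneg (hmin0 z) _
    calc min (2 * K * w z) m * min (2 * K * w z) m ^ e ≤ (2 * K * w z) * (2 * min (w z) m ^ e) :=
          mul_le_mul (min_le_left _ _) h5 (Real.rpow_nonneg h3.le _) (by positivity)
      _ = 4 * K * (min (w z) m ^ e * w z) := by ring
  -- conclusion
  set Y : ENNReal := ∫⁻ t in Set.Ioi 0, V {a | t < min (2 * K * w a) m} *
      ENNReal.ofReal (t ^ ((1 + e) - 1)) with hY
  have hY2 : Y ≤ ENNReal.ofReal (4 * K) * X := by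
    refine le_trans ?_ hsecond
    calc Y = 1 * Y := (one_mul _).symm
      _ ≤ ENNReal.ofReal (1 + e) * Y := by
          gcongr
          rw [← ENNReal.ofReal_one]
          exact ENNReal.ofReal_le_ofReal (by linarith)
  have hfin1 : X ≤ ENNReal.ofReal (l0 ^ e) * (∫⁻ z in sqn P, ENNReal.ofReal (w z)) + 2⁻¹ * X := by
    calc X = ENNReal.ofReal e * ∫⁻ t in Set.Ioi 0, W {a | t < min (w a) m} *
          ENNReal.ofReal (t ^ (e - 1)) := eX
      _ ≤ ENNReal.ofReal e * ((∫⁻ z in sqn P, ENNReal.ofReal (w z)) *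
          (∫⁻ t in Set.Ioc 0 l0, ENNReal.ofReal (t ^ (e - 1))) + 8 * Y) := by gcongr
      _ = (ENNReal.ofReal e * ∫⁻ t in Set.Ioc 0 l0, ENNReal.ofReal (t ^ (e - 1))) *
          (∫⁻ z in sqn P, ENNReal.ofReal (w z)) + ENNReal.ofReal e * 8 * Y := by ring
      _ ≤ ENNReal.ofReal (l0 ^ e) * (∫⁻ z in sqn P, ENNReal.ofReal (w z)) +
          ENNReal.ofReal e * 8 * (ENNReal.ofReal (4 * K) * X) := by
          rw [hfirst]
          gcongr
      _ = _ := by
          congr 1
          rw [← mul_assoc]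
          congr 1
          have h8 : (8 : ENNReal) = ENNReal.ofReal 8 := by norm_num
          have h9 : (2⁻¹ : ENNReal) = ENNReal.ofReal (2⁻¹) := by
            rw [ENNReal.ofReal_inv_of_pos (by norm_num)]
            norm_num
          rw [h8, h9, ← ENNReal.ofReal_mul (by positivity), ← ENNReal.ofReal_mul (by positivity)]
          congr 1
          rw [he]
          field_simp
          norm_num
  have hX2 : (2⁻¹ : ENNReal) * X + 2⁻¹ * X = X := by
    rw [← add_mul, ENNReal.inv_two_add_inv_two, one_mul]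
  have hhalf : (2⁻¹ : ENNReal) * X ≤
      ENNReal.ofReal (l0 ^ e) * (∫⁻ z in sqn P, ENNReal.ofReal (w z)) := by
    have hfh : (2⁻¹ : ENNReal) * X ≠ ⊤ := ENNReal.mul_ne_top (by norm_num) hXfin
    have h3 : (2⁻¹ : ENNReal) * X + 2⁻¹ * X ≤
        ENNReal.ofReal (l0 ^ e) * (∫⁻ z in sqn P, ENNReal.ofReal (w z)) + 2⁻¹ * X := by
      rw [hX2]
      exact hfin1
    exact (ENNReal.add_le_add_iff_right hfh).1 h3
  calc X = 2 * (2⁻¹ * X) := by
        rw [← mul_assoc, ENNReal.mul_inv_cancel (by norm_num) (by norm_num), one_mul]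
    _ ≤ _ := by gcongr

end Pool.MP_75bf3e_an.RH
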